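import Pool.Agent.Run7.h35.PS8.Stm
namespace Run7.h35.PS8
open Finset

open Classical in
theorem t_DIS : S_LET → S_KP → S_RC → S_DIS := by
  intro hLET hKP hRC G _ _ Q x
  set F : ℕ → G × G := fun i => (Q.s x i, Q.s x (i + 1)) with hF
  set B : ℕ → G × G := fun i => ((Q.s x (i - 1))⁻¹, (Q.s x (i - 2))⁻¹) with hB
  set N := Icc 2 (Q.L x - 2) with hN
  -- one pair of parity classes
  have key : ∀ e e' : ℕ, (((N.filter (fun i => i % 2 = e)) ×ˢ (N.filter (fun i => i % 2 = e'))).filter
      (fun a => Dj F B a.1 a.2)).card ≤ 16 * Fintype.card G := by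
    intro e e'
    apply hRC
    intro c
    apply hKP G Q x x
    · intro i hi
      simp only [hN, Finset.mem_filter, Finset.mem_Icc] at hi
      omega
    · intro i hi
      simp only [hN, Finset.mem_filter, Finset.mem_Icc] at hi
      omega
    · -- colours of differences
      have colI : ∀ (v : Bool) (E : ℕ) (i i' : ℕ), i ∈ N → i' ∈ N → i % 2 = E → i' % 2 = E → i ≠ i' →
          c (F i) = v → c (B i) = v →
          c (Q.s ((Q.y x i)⁻¹ * Q.y x i') 0, Q.s ((Q.y x i)⁻¹ * Q.y x i') 1) = v := by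
        intro v E i i' hi hi' he he' hne hFv hBv
        simp only [hN, Finset.mem_Icc] at hi hi'
        rcases lt_or_gt_of_ne hne with hlt | hlt
        · have h := hLET G Q x i i' hlt.le (by omega)
          rw [h.2.1 0 (by omega), h.2.1 1 (by omega)]
          exact hFv
        · have h := hLET G Q x i' i hlt.le (by omega)
          rw [h.2.2.2 0 (by omega), h.2.2.2 1 (by omega)]
          have : c ((Q.s x (i - 1 - 0))⁻¹, (Q.s x (i - 1 - 1))⁻¹) = c (B i) := by
            simp only [hB]; rw [Nat.sub_zero, Nat.sub_sub]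
          rw [this]; exact hBv
      intro i hi i' hi' j hj j' hj' hne hne' heq
      simp only [Finset.mem_filter] at hi hi' hj hj'
      have h1 := colI true e i i' hi.1.1 hi'.1.1 hi.1.2 hi'.1.2 hne hi.2.1 hi.2.2
      have h2 := colI false e' j j' hj.1.1 hj'.1.1 hj.1.2 hj'.1.2 hne' hj.2.1 hj.2.2
      rw [heq] at h1
      rw [h1] at h2
      exact Bool.noConfusion h2
  have hsub : (N ×ˢ N).filter (fun a => Dj F B a.1 a.2) ⊆
      ((((N.filter (fun i => i % 2 = 0)) ×ˢ (N.filter (fun i => i % 2 = 0))).filter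
        (fun a => Dj F B a.1 a.2)) ∪
      (((N.filter (fun i => i % 2 = 0)) ×ˢ (N.filter (fun i => i % 2 = 1))).filter
        (fun a => Dj F B a.1 a.2))) ∪
      ((((N.filter (fun i => i % 2 = 1)) ×ˢ (N.filter (fun i => i % 2 = 0))).filter
        (fun a => Dj F B a.1 a.2)) ∪
      (((N.filter (fun i => i % 2 = 1)) ×ˢ (N.filter (fun i => i % 2 = 1))).filter
        (fun a => Dj F B a.1 a.2))) := by
    intro a ha
    simp only [Finset.mem_filter, Finset.mem_product, Finset.mem_union] at ha ⊢
    obtain ⟨⟨h1, h2⟩, h3⟩ := ha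
    rcases Nat.mod_two_eq_zero_or_one a.1 with e1 | e1 <;>
      rcases Nat.mod_two_eq_zero_or_one a.2 with e2 | e2 <;> simp [h1, h2, h3, e1, e2]
  have hc := Finset.card_le_card hsub
  have u1 := Finset.card_union_le ((((N.filter (fun i => i % 2 = 0)) ×ˢ (N.filter (fun i => i % 2 = 0))).filter
        (fun a => Dj F B a.1 a.2)) ∪
      (((N.filter (fun i => i % 2 = 0)) ×ˢ (N.filter (fun i => i % 2 = 1))).filter
        (fun a => Dj F B a.1 a.2))) ((((N.filter (fun i => i % 2 = 1)) ×ˢ (N.filter (fun i => i % 2 = 0))).filter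
        (fun a => Dj F B a.1 a.2)) ∪
      (((N.filter (fun i => i % 2 = 1)) ×ˢ (N.filter (fun i => i % 2 = 1))).filter
        (fun a => Dj F B a.1 a.2)))
  have u2 := Finset.card_union_le (((N.filter (fun i => i % 2 = 0)) ×ˢ (N.filter (fun i => i % 2 = 0))).filter
        (fun a => Dj F B a.1 a.2)) (((N.filter (fun i => i % 2 = 0)) ×ˢ (N.filter (fun i => i % 2 = 1))).filter
        (fun a => Dj F B a.1 a.2))
  have u3 := Finset.card_union_le (((N.filter (fun i => i % 2 = 1)) ×ˢ (N.filter (fun i => i % 2 = 0))).filter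
        (fun a => Dj F B a.1 a.2)) (((N.filter (fun i => i % 2 = 1)) ×ˢ (N.filter (fun i => i % 2 = 1))).filter
        (fun a => Dj F B a.1 a.2))
  have k1 := key 0 0
  have k2 := key 0 1
  have k3 := key 1 0
  have k4 := key 1 1
  omega

end Run7.h35.PS8
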