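import Pool.Agent.Run7.h35.PS8.Stm
namespace Run7.h35.PS8
open Finset

theorem t_FIN : S_MAIN0 → S_PSOF → S_LEN → S_FIN := by
  intro hM hP hLen
  refine ⟨40000, by norm_num, ?_⟩
  intro G _ _ S P hS
  set n := Fintype.card G with hn
  have hn1 : 1 ≤ n := Fintype.card_pos
  obtain ⟨Q, hQ⟩ := hP G S P hS
  have hsq : n ≤ (Nat.sqrt n + 1) ^ 2 := by
    have := Nat.lt_succ_sqrt' n
    exact this.le
  obtain ⟨ν, ⟨h0, h1, h2, h3⟩, h4⟩ := hM G Q (Nat.sqrt n + 1) hsq (Nat.succ_le_succ (Nat.zero_le _))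
  have hs1 : (1 : ℝ) ≤ √(n : ℝ) := by
    rw [Real.one_le_sqrt]; exact_mod_cast hn1
  have hMn : ((Nat.sqrt n + 1 : ℕ) : ℝ) ≤ 2 * √(n : ℝ) := by
    have := Real.nat_sqrt_le_real_sqrt (a := n)
    push_cast
    linarith
  have hmetric : IsAlphaMetric P (40000 * √(n : ℝ)) := by
    refine ⟨fun u v => (ν (u⁻¹ * v) : ℝ), ⟨?_, ?_, ?_⟩, ?_⟩
    · intro u v
      constructor
      · intro h
        have h'' : ((ν (u⁻¹ * v) : ℕ) : ℝ) = 0 := h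
        have h' : ν (u⁻¹ * v) = 0 := by exact_mod_cast h''
        exact inv_mul_eq_one.mp (h1 _ h')
      · rintro rfl
        simp [h0]
    · intro u v
      have : (u⁻¹ * v)⁻¹ = v⁻¹ * u := by group
      show ((ν (u⁻¹ * v) : ℕ) : ℝ) = ((ν (v⁻¹ * u) : ℕ) : ℝ)
      rw [← this, h2]
    · intro u v w
      have := h3 (u⁻¹ * v) (v⁻¹ * w)
      rw [show u⁻¹ * v * (v⁻¹ * w) = u⁻¹ * w by group] at this
      show ((ν (u⁻¹ * w) : ℕ) : ℝ) ≤ ((ν (u⁻¹ * v) : ℕ) : ℝ) + ((ν (v⁻¹ * w) : ℕ) : ℝ)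
      exact_mod_cast this
    · intro u v
      rw [hQ u v, hLen]
      have h5 : ∑ i ∈ range (Q.L (u⁻¹ * v)), ((ν ((u * Q.y (u⁻¹ * v) i)⁻¹ *
          (u * Q.y (u⁻¹ * v) (i + 1))) : ℕ) : ℝ) =
          ((∑ i ∈ range (Q.L (u⁻¹ * v)), ν (Q.s (u⁻¹ * v) i) : ℕ) : ℝ) := by
        push_cast
        apply Finset.sum_congr rfl
        intro i _
        congr 2
        simp only [PS.s]; group
      rw [h5]
      have h6 := h4 (u⁻¹ * v)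
      calc ((∑ i ∈ range (Q.L (u⁻¹ * v)), ν (Q.s (u⁻¹ * v) i) : ℕ) : ℝ)
          ≤ ((20000 * (Nat.sqrt n + 1) * ν (u⁻¹ * v) : ℕ) : ℝ) := by exact_mod_cast h6
        _ = 20000 * ((Nat.sqrt n + 1 : ℕ) : ℝ) * (ν (u⁻¹ * v) : ℝ) := by push_cast; ring
        _ ≤ 20000 * (2 * √(n : ℝ)) * (ν (u⁻¹ * v) : ℝ) := by gcongr
        _ = 40000 * √(n : ℝ) * (ν (u⁻¹ * v) : ℝ) := by ring
  refine ⟨hmetric, ?_⟩
  apply csInf_le
  · exact ⟨1, fun a ha => ha.1⟩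
  · exact ⟨by linarith, hmetric⟩

end Run7.h35.PS8
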