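import Mathlib

/-!
# Group-invariant consistent path systems (MP_8f0578_co): interface and pieces
-/

namespace Run7.h35.PS8

open Finset

/-- The length of a path (list of vertices) for a function `ρ`. -/
def plen {V : Type*} (ρ : V → V → ℝ) : List V → ℝ
  | [] => 0
  | [_] => 0
  | a :: b :: l => ρ a b + plen ρ (b :: l)

/-- `P u v` is the vertex list of the chosen path from `u` to `v`; consistent path system. -/
structure IsPathSystem {V : Type*} (Adj : V → V → Prop) (P : V → V → List V) : Prop where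
  head : ∀ u v, (P u v).head? = some u
  last : ∀ u v, (P u v).getLast? = some v
  chain : ∀ u v (l₁ l₂ : List V) (a b : V), P u v = l₁ ++ a :: b :: l₂ → Adj a b
  nodup : ∀ u v, (P u v).Nodup
  symm : ∀ u v, P v u = (P u v).reverse
  cons : ∀ u v (l₁ l₂ l₃ : List V) (a b : V), P u v = l₁ ++ l₂ ++ l₃ →
    l₂.head? = some a → l₂.getLast? = some b → l₂ = P a b

/-- A metric on `V`. -/
def IsMetric {V : Type*} (ρ : V → V → ℝ) : Prop :=
  (∀ u v, ρ u v = 0 ↔ u = v) ∧ (∀ u v, ρ u v = ρ v u) ∧ (∀ u v w, ρ u w ≤ ρ u v + ρ v w)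

/-- The path system `P` is `α`-metric. -/
def IsAlphaMetric {V : Type*} (P : V → V → List V) (α : ℝ) : Prop :=
  ∃ ρ : V → V → ℝ, IsMetric ρ ∧ ∀ u v, plen ρ (P u v) ≤ α * ρ u v

/-- `Δ(P)`. -/
noncomputable def Delta {V : Type*} (P : V → V → List V) : ℝ :=
  sInf {α : ℝ | 1 ≤ α ∧ IsAlphaMetric P α}

/-- `P` is a `G`-invariant consistent path system in the Cayley graph of `G` with respect to the
symmetric generating set `S`. -/
structure IsCayleySystem {G : Type*} [Group G] (S : Set G) (P : G → G → List G) : Prop where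
  symmS : ∀ s ∈ S, s⁻¹ ∈ S
  gen : Subgroup.closure S = ⊤
  sys : IsPathSystem (fun x z => ∃ s ∈ S, z = x * s) P
  inv : ∀ g x z, P (g * x) (g * z) = (P x z).map (fun h => g * h)

/-- The abstract form: the path from `1` to `x` has `L x` edges and its `i`th vertex
is `y x i`. -/
structure PS (G : Type) [Group G] where
  L : G → ℕ
  y : G → ℕ → G
  y0 : ∀ x, y x 0 = 1
  yL : ∀ x, y x (L x) = x
  sub : ∀ x i j, i ≤ j → j ≤ L x → L ((y x i)⁻¹ * y x j) = j - i ∧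
    ∀ t, t ≤ j - i → y ((y x i)⁻¹ * y x j) t = (y x i)⁻¹ * y x (i + t)
  inv : ∀ x, L x⁻¹ = L x ∧ ∀ t, t ≤ L x → y x⁻¹ t = x⁻¹ * y x (L x - t)

/-- The `i`th letter of the word of `x`. -/
def PS.s {G : Type} [Group G] (Q : PS G) (x : G) (i : ℕ) : G := (Q.y x i)⁻¹ * Q.y x (i + 1)

/-- `{p, q}` is a set of two elements closed under inversion. -/
def Cl {G : Type} [Group G] (p q : G) : Prop :=
  p ≠ q ∧ (p⁻¹ = p ∨ p⁻¹ = q) ∧ (q⁻¹ = p ∨ q⁻¹ = q)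

/-- membership in `{p, q}` -/
def InH {G : Type} [Group G] (p q e : G) : Prop := e = p ∨ e = q

/-- two-separated set of positions -/
def Sep (I : Finset ℕ) : Prop := ∀ i ∈ I, ∀ i' ∈ I, i < i' → i + 2 ≤ i'

/-- `I` is a two-separated set of deep positions of the word of `x`. -/
def Deep {G : Type} [Group G] (Q : PS G) (p q x : G) (I : Finset ℕ) : Prop :=
  Sep I ∧ ∀ i ∈ I, 2 ≤ i ∧ i + 2 ≤ Q.L x ∧ InH p q (Q.s x (i - 2)) ∧ InH p q (Q.s x (i - 1)) ∧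
    InH p q (Q.s x i) ∧ InH p q (Q.s x (i + 1))

/-- An integer norm on a group. -/
def IsNorm {G : Type} [Group G] (ν : G → ℕ) : Prop :=
  ν 1 = 0 ∧ (∀ x, ν x = 0 → x = 1) ∧ (∀ x, ν x⁻¹ = ν x) ∧ (∀ x z, ν (x * z) ≤ ν x + ν z)

/-- types of positions `a`, `b` are disjoint -/
def Dj {Ω : Type} (F B : ℕ → Ω) (a b : ℕ) : Prop :=
  F a ≠ F b ∧ F a ≠ B b ∧ B a ≠ F b ∧ B a ≠ B b

/-! ## Pieces -/

/-- words of differences -/
def S_LET : Prop := ∀ (G : Type) [Group G] (Q : PS G) (x : G) (i j : ℕ), i ≤ j → j ≤ Q.L x →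
  Q.L ((Q.y x i)⁻¹ * Q.y x j) = j - i ∧
  (∀ t, t < j - i → Q.s ((Q.y x i)⁻¹ * Q.y x j) t = Q.s x (i + t)) ∧
  Q.L ((Q.y x j)⁻¹ * Q.y x i) = j - i ∧
  (∀ t, t < j - i → Q.s ((Q.y x j)⁻¹ * Q.y x i) t = (Q.s x (j - 1 - t))⁻¹)

/-- prefixes are distinct -/
def S_INJ : Prop := ∀ (G : Type) [Group G] (Q : PS G) (x : G) (i j : ℕ), i ≤ Q.L x → j ≤ Q.L x →
  Q.y x i = Q.y x j → i = j

/-- words are reduced -/
def S_RED : Prop := ∀ (G : Type) [Group G] (Q : PS G) (x : G) (i : ℕ), i + 2 ≤ Q.L x →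
  Q.s x (i + 1) ≠ (Q.s x i)⁻¹

/-- product set principle -/
def S_KP : Prop := ∀ (G : Type) [Group G] [Fintype G] (Q : PS G) (x x' : G) (I J : Finset ℕ),
  (∀ i ∈ I, i ≤ Q.L x) → (∀ j ∈ J, j ≤ Q.L x') →
  (∀ i ∈ I, ∀ i' ∈ I, ∀ j ∈ J, ∀ j' ∈ J, i ≠ i' → j ≠ j' →
    (Q.y x i)⁻¹ * Q.y x i' ≠ (Q.y x' j)⁻¹ * Q.y x' j') →
  I.card * J.card ≤ Fintype.card G

open Classical in
/-- random colouring -/
def S_RC : Prop := ∀ (Ω : Type) [Fintype Ω] (F B : ℕ → Ω) (A A' : Finset ℕ) (n : ℕ),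
  (∀ c : Ω → Bool, (A.filter (fun i => c (F i) = true ∧ c (B i) = true)).card *
    (A'.filter (fun j => c (F j) = false ∧ c (B j) = false)).card ≤ n) →
  ((A ×ˢ A').filter (fun a => Dj F B a.1 a.2)).card ≤ 16 * n

open Classical in
/-- few disjoint pairs -/
def S_DIS : Prop := ∀ (G : Type) [Group G] [Fintype G] (Q : PS G) (x : G),
  ((Icc 2 (Q.L x - 2) ×ˢ Icc 2 (Q.L x - 2)).filter (fun a =>
    Dj (fun i => (Q.s x i, Q.s x (i + 1))) (fun i => ((Q.s x (i - 1))⁻¹, (Q.s x (i - 2))⁻¹))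
      a.1 a.2)).card ≤ 64 * Fintype.card G

open Classical in
/-- the star lemma -/
def S_STAR : Prop := ∀ (Ω : Type) (bar : Ω → Ω), (∀ w, bar (bar w) = w) →
  ∀ (F B : ℕ → Ω) (k : ℕ), 10000 ≤ k →
  (∀ i, 2 ≤ i → i + 2 ≤ k - 2 → B (i + 2) = bar (F i)) →
  (∀ i ∈ Icc 2 (k - 2), F i ≠ bar (F i) ∧ B i ≠ bar (B i)) →
  1000000 * ((Icc 2 (k - 2) ×ˢ Icc 2 (k - 2)).filter (fun a => Dj F B a.1 a.2)).card ≤ (k - 3) ^ 2 →
  ∃ w, 100 * ((Icc 2 (k - 2)).filter (fun i => F i ≠ w ∧ B i ≠ w)).card ≤ k - 3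

open Classical in
/-- the structure at a star -/
def S_STRUCT : Prop := ∀ (G : Type) [Group G] (s : ℕ → G) (k : ℕ), 10000 ≤ k →
  (∀ i, i + 2 ≤ k → s (i + 1) ≠ (s i)⁻¹) → ∀ a b : G,
  100 * ((Icc 2 (k - 2)).filter (fun i => ¬ (s i = a ∧ s (i + 1) = b) ∧
    ¬ (s (i - 1) = a⁻¹ ∧ s (i - 2) = b⁻¹))).card ≤ k - 3 →
  ∃ p q : G, Cl p q ∧ k ≤ 20 * ((Icc 2 (k - 2)).filter (fun i => InH p q (s (i - 2)) ∧
    InH p q (s (i - 1)) ∧ InH p q (s i) ∧ InH p q (s (i + 1)))).card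

/-- long words give a large deep set -/
def S_LONG : Prop := ∀ (G : Type) [Group G] [Fintype G] (Q : PS G) (x : G) (M : ℕ),
  Fintype.card G ≤ M ^ 2 → 1 ≤ M → 20000 * M < Q.L x →
  ∃ p q : G, Cl p q ∧ ∃ I : Finset ℕ, M ≤ I.card ∧ Deep Q p q x I

/-- first count -/
def S_J : Prop := ∀ (G : Type) [Group G] [Fintype G] (Q : PS G) (x₀ x p q : G) (I J : Finset ℕ),
  Cl p q → Deep Q p q x₀ I → Sep J →
  (∀ j ∈ J, 1 ≤ j ∧ j + 2 ≤ Q.L x ∧ ¬ InH p q (Q.s x (j - 1)) ∧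
    ¬ (InH p q (Q.s x j) ∧ InH p q (Q.s x (j + 1)))) → I.card * J.card ≤ Fintype.card G

/-- second count -/
def S_K : Prop := ∀ (G : Type) [Group G] [Fintype G] (Q : PS G) (x p q h : G) (K : Finset ℕ),
  Cl p q → InH p q h →
  (∀ j ∈ K, 1 ≤ j ∧ j + 2 ≤ Q.L x ∧ ¬ InH p q (Q.s x (j - 1)) ∧ Q.s x j = h ∧
    InH p q (Q.s x (j + 1))) → K.card * K.card ≤ Fintype.card G

open Classical in
/-- few letters outside `H` -/
def S_NONH : Prop := ∀ (G : Type) [Group G] [Fintype G] (Q : PS G) (x₀ p q : G) (I : Finset ℕ)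
  (M : ℕ), Fintype.card G ≤ M ^ 2 → 1 ≤ M → Cl p q → M ≤ I.card → Deep Q p q x₀ I →
  ∀ x, ((range (Q.L x)).filter (fun i => ¬ InH p q (Q.s x i))).card ≤ 4 * M + 2

open Classical in
/-- runs -/
def S_RUNS : Prop := ∀ (k r : ℕ) (P : ℕ → Prop),
  (∀ i j, i ≤ j → j ≤ k → (∀ t, i ≤ t → t < j → P t) → j - i ≤ r) →
  ((range k).filter (fun i => P i)).card ≤ (((range k).filter (fun i => ¬ P i)).card + 1) * r

/-- subwords of a long `H`-word -/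
def S_SUBW : Prop := ∀ (G : Type) [Group G] (Q : PS G) (p q xm : G), Cl p q →
  (∀ i, i < Q.L xm → InH p q (Q.s xm i)) → ∀ h, InH p q h → ∀ t, 1 ≤ t → t < Q.L xm →
  ∃ z, Q.L z = t ∧ (∀ i, i < t → InH p q (Q.s z i)) ∧ Q.s z 0 = h

/-- short products of elements of `H` -/
def S_GEO : Prop := ∀ (G : Type) [Group G] (Q : PS G) (p q xm : G), Cl p q →
  (∀ i, i < Q.L xm → InH p q (Q.s xm i)) → ∀ l : List G, (∀ e ∈ l, InH p q e) →
  l.length < Q.L xm → (∀ i, i < Q.L l.prod → InH p q (Q.s l.prod i)) ∧ Q.L l.prod ≤ l.length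

/-- truncated word norm -/
def S_NORM : Prop := ∀ (G : Type) [Group G] (H : G → Prop) (r : ℕ), 1 ≤ r →
  (∀ h, H h → H h⁻¹) → ∃ ν : G → ℕ, IsNorm ν ∧ (∀ x, ν x ≤ r) ∧ (∀ h, H h → ν h ≤ 1) ∧
    ∀ x, ν x < r → ∃ l : List G, (∀ e ∈ l, H e) ∧ l.length = ν x ∧ l.prod = x

open Classical in
/-- the metric for `H` -/
def S_MET : Prop := ∀ (G : Type) [Group G] [Fintype G] (Q : PS G) (p q : G) (N : ℕ), Cl p q →
  (∀ x, ((range (Q.L x)).filter (fun i => ¬ InH p q (Q.s x i))).card ≤ N) →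
  (∃ x, 1 ≤ Q.L x ∧ ∀ i, i < Q.L x → InH p q (Q.s x i)) →
  ∃ ν : G → ℕ, IsNorm ν ∧ ∀ x, ∑ i ∈ range (Q.L x), ν (Q.s x i) ≤ (2 * N + 1) * ν x

/-- main theorem for the abstract form -/
def S_MAIN0 : Prop := ∀ (G : Type) [Group G] [Fintype G] (Q : PS G) (M : ℕ),
  Fintype.card G ≤ M ^ 2 → 1 ≤ M →
  ∃ ν : G → ℕ, IsNorm ν ∧ ∀ x, ∑ i ∈ range (Q.L x), ν (Q.s x i) ≤ (20000 * M) * ν x

/-- from a path system to the abstract form -/
def S_PSOF : Prop := ∀ (G : Type) [Group G] (S : Set G) (P : G → G → List G),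
  IsCayleySystem S P → ∃ Q : PS G, ∀ u v, P u v =
    (List.range (Q.L (u⁻¹ * v) + 1)).map (fun i => u * Q.y (u⁻¹ * v) i)

/-- length of a list -/
def S_LEN : Prop := ∀ (V : Type) (ρ : V → V → ℝ) (k : ℕ) (f : ℕ → V),
  plen ρ ((List.range (k + 1)).map f) = ∑ i ∈ range k, ρ (f i) (f (i + 1))

/-- main theorem -/
def S_FIN : Prop := ∃ C : ℝ, 0 < C ∧ ∀ (G : Type) [Group G] [Fintype G] (S : Set G)
  (P : G → G → List G), IsCayleySystem S P →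
    IsAlphaMetric P (C * √(Fintype.card G : ℝ)) ∧ Delta P ≤ C * √(Fintype.card G : ℝ)

end Run7.h35.PS8
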