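import Mathlib
import Pool.Agent.Run7.h35.PS8.Stm

/-!
# Piece GEO of project PS8 (MP_8f0578_co): short products of elements of `H`
-/

namespace Run7.h73.PS8

open Run7.h35.PS8

theorem geo_L1 {G : Type} [Group G] (Q : PS G) : Q.L 1 = 0 := by
  have h := (Q.sub 1 0 0 le_rfl (Nat.zero_le _)).1
  simpa using h

theorem geo_inv {G : Type} [Group G] {p q e : G} (hc : Cl p q) (he : InH p q e) :
    InH p q e⁻¹ := by
  obtain ⟨_, h1, h2⟩ := hc
  rcases he with rfl | rfl
  · exact h1
  · exact h2

theorem geo_uniq {G : Type} [Group G] {p q u v w : G} (hu : InH p q u) (hv : InH p q v)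
    (hw : InH p q w) (h1 : u ≠ w) (h2 : v ≠ w) : u = v := by
  rcases hu with rfl | rfl <;> rcases hv with rfl | rfl <;> rcases hw with hw | hw <;>
    first | rfl | exact absurd hw.symm h1 | exact absurd hw.symm h2

theorem geo_step {G : Type} [Group G] (Q : PS G) (x : G) (n : ℕ) :
    Q.y x (n + 1) = Q.y x n * Q.s x n := by
  simp [PS.s]

theorem geo_s {G : Type} [Group G] (hRED : S_RED) (Q : PS G) {p q x z : G} {t : ℕ}
    (hc : Cl p q) (hx : t ≤ Q.L x) (hz : t ≤ Q.L z)
    (hx' : ∀ i, i < t → InH p q (Q.s x i)) (hz' : ∀ i, i < t → InH p q (Q.s z i))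
    (h0 : Q.s z 0 = Q.s x 0) : ∀ n, n < t → Q.s z n = Q.s x n := by
  intro n
  induction n with
  | zero => intro _; exact h0
  | succ n ih =>
    intro hn
    have e := ih (by omega)
    have r1 := hRED G Q z n (by omega)
    have r2 := hRED G Q x n (by omega)
    rw [← e] at r2
    exact geo_uniq (hz' _ hn) (hx' _ hn) (geo_inv hc (hz' n (by omega))) r1 r2

theorem geo_y {G : Type} [Group G] (hRED : S_RED) (Q : PS G) {p q x z : G} {t : ℕ}
    (hc : Cl p q) (hx : t ≤ Q.L x) (hz : t ≤ Q.L z)
    (hx' : ∀ i, i < t → InH p q (Q.s x i)) (hz' : ∀ i, i < t → InH p q (Q.s z i))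
    (h0 : Q.s z 0 = Q.s x 0) : ∀ n, n ≤ t → Q.y z n = Q.y x n := by
  intro n
  induction n with
  | zero => intro _; rw [Q.y0, Q.y0]
  | succ n ih =>
    intro hn
    rw [geo_step, geo_step, ih (by omega), geo_s hRED Q hc hx hz hx' hz' h0 n (by omega)]

theorem t_GEO : S_LET → S_RED → S_SUBW → S_GEO := by
  intro hLET hRED hSUBW G _ Q p q xm hc hm l
  induction l using List.reverseRecOn with
  | nil =>
    intro _ _
    simp [geo_L1 Q]
  | append_singleton l h ih =>
    intro hl hlen
    have hlen' : l.length + 1 < Q.L xm := by simpa using hlen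
    obtain ⟨ihs, ihL⟩ := ih (fun e he => hl e (by simp [he])) (by omega)
    have hh : InH p q h := hl h (by simp)
    have hprod : (l ++ [h]).prod = l.prod * h := by simp
    have hlen2 : (l ++ [h]).length = l.length + 1 := by simp
    rw [hprod, hlen2]
    obtain ⟨x, hxdef⟩ : ∃ x, x = l.prod := ⟨_, rfl⟩
    rw [← hxdef] at ihs ihL ⊢
    rcases Nat.eq_zero_or_pos (Q.L x) with h0 | hpos
    · have hx1 : x = 1 := by
        have := Q.yL x
        rw [h0, Q.y0] at this
        exact this.symm
      obtain ⟨z, hz1, hz2, hz3⟩ := hSUBW G Q p q xm hc hm h hh 1 le_rfl (by omega)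
      have hzh : z = h := by
        have h1 := Q.yL z
        rw [hz1, geo_step, Q.y0, hz3, one_mul] at h1
        exact h1.symm
      rw [hx1, one_mul, ← hzh]
      exact ⟨fun i hi => hz2 i (by omega), by omega⟩
    · obtain ⟨z, hz1, hz2, hz3⟩ := hSUBW G Q p q xm hc hm (Q.s x 0) (ihs 0 hpos) (Q.L x + 1)
        (by omega) (by omega)
      have hy := geo_y hRED Q hc (le_refl (Q.L x)) (by omega) ihs
        (fun i hi => hz2 i (by omega)) hz3
      have hs := geo_s hRED Q hc (le_refl (Q.L x)) (by omega) ihs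
        (fun i hi => hz2 i (by omega)) hz3
      have hyx : Q.y z (Q.L x) = x := by rw [hy _ le_rfl, Q.yL]
      obtain ⟨k, hk⟩ : ∃ k, Q.L x = k + 1 := ⟨Q.L x - 1, by omega⟩
      by_cases hcase : h = (Q.s x k)⁻¹
      · have hp : x * h = Q.y x k := by
          have h1 := Q.yL x
          rw [hk, geo_step] at h1
          rw [hcase]
          nth_rewrite 1 [← h1]
          group
        have hlet := hLET G Q x 0 k (Nat.zero_le _) (by omega)
        rw [Q.y0] at hlet
        simp only [inv_one, one_mul, Nat.sub_zero, Nat.zero_add] at hlet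
        rw [hp, hlet.1]
        refine ⟨fun i hi => ?_, by omega⟩
        rw [hlet.2.1 i hi]
        exact ihs i (by omega)
      · have r1 := hRED G Q z k (by omega)
        have hzk : Q.s z k = Q.s x k := hs k (by omega)
        have hh2 : h = Q.s z (k + 1) := by
          refine geo_uniq hh (hz2 (k + 1) (by omega)) (geo_inv hc (hz2 k (by omega))) ?_ r1
          rw [hzk]; exact hcase
        have hp : x * h = z := by
          have h1 := Q.yL z
          rw [hz1, geo_step, hyx, hk, ← hh2] at h1
          exact h1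
        rw [hp]
        exact ⟨fun i hi => hz2 i (by omega), by omega⟩

end Run7.h73.PS8
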