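import Mathlib
import Pool.Agent.Run7.h35.PS8.Stm

set_option autoImplicit false

namespace Run7.h285.PS8

open Run7.h35.PS8 Finset

theorem inH_inv {G : Type} [Group G] {p q e : G} (hC : Cl p q) (h : InH p q e) :
    InH p q e⁻¹ := by
  obtain ⟨-, h1, h2⟩ := hC
  rcases h with rfl | rfl
  · exact h1
  · exact h2.symm.symm

theorem not_inH_inv {G : Type} [Group G] {p q e : G} (hC : Cl p q) (h : ¬ InH p q e) :
    ¬ InH p q e⁻¹ := fun h' => h (by simpa using inH_inv hC h')

theorem t_K (hLET : S_LET) (hINJ : S_INJ) : S_K := by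
  intro G _ _ Q x p q h K hC hh hK
  have hy : ∀ i ∈ K, Q.y x (i + 1) = Q.y x i * h := by
    intro i hi
    have h1 := (hK i hi).2.2.2.1
    unfold PS.s at h1
    rw [← h1]
    group
  rw [← Finset.card_product, ← Finset.card_univ]
  refine Finset.card_le_card_of_injOn (fun a => Q.y x a.1 * h * (Q.y x a.2)⁻¹)
    (fun _ _ => Finset.mem_coe.2 (Finset.mem_univ _)) ?_
  rintro ⟨i, j⟩ hij ⟨i', j'⟩ hij' heq
  simp only [Finset.coe_product, Set.mem_prod, Finset.mem_coe] at hij hij'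
  obtain ⟨hi, hj⟩ := hij
  obtain ⟨hi', hj'⟩ := hij'
  have e1 : Q.y x (i + 1) * (Q.y x j)⁻¹ = Q.y x (i' + 1) * (Q.y x j')⁻¹ := by
    rw [hy i hi, hy i' hi']
    exact heq
  have e2 : (Q.y x (i' + 1))⁻¹ * Q.y x (i + 1) = (Q.y x j')⁻¹ * Q.y x j := by
    have h1 := congrArg (fun g => (Q.y x (i' + 1))⁻¹ * g * Q.y x j) e1
    simpa [mul_assoc] using h1
  obtain ⟨a1, a2, a3, a4, a5⟩ := hK i hi
  obtain ⟨b1, b2, b3, b4, b5⟩ := hK i' hi'
  obtain ⟨c1, c2, c3, c4, c5⟩ := hK j hj
  obtain ⟨d1, d2, d3, d4, d5⟩ := hK j' hj'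
  by_cases hii : i = i'
  · subst hii
    rw [inv_mul_cancel] at e2
    have h1 : Q.y x j' = Q.y x j := (inv_mul_eq_one.1 e2.symm)
    have h2 := hINJ G Q x j' j (by omega) (by omega) h1
    rw [h2]
  · exfalso
    have hw : ∃ n, 1 ≤ n ∧ Q.L ((Q.y x j')⁻¹ * Q.y x j) = n ∧
        InH p q (Q.s ((Q.y x j')⁻¹ * Q.y x j) 0) ∧
        InH p q (Q.s ((Q.y x j')⁻¹ * Q.y x j) (n - 1)) := by
      rw [← e2]
      rcases lt_or_gt_of_ne hii with hlt | hgt
      · obtain ⟨-, -, l3, l4⟩ := hLET G Q x (i + 1) (i' + 1) (by omega) (by omega)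
        refine ⟨i' + 1 - (i + 1), by omega, l3, ?_, ?_⟩
        · rw [l4 0 (by omega)]
          apply inH_inv hC
          rw [show i' + 1 - 1 - 0 = i' by omega, b4]
          exact hh
        · rw [l4 _ (by omega)]
          apply inH_inv hC
          rw [show i' + 1 - 1 - (i' + 1 - (i + 1) - 1) = i + 1 by omega]
          exact a5
      · obtain ⟨l1, l2, -, -⟩ := hLET G Q x (i' + 1) (i + 1) (by omega) (by omega)
        refine ⟨i + 1 - (i' + 1), by omega, l1, ?_, ?_⟩
        · rw [l2 0 (by omega)]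
          exact b5
        · rw [l2 _ (by omega)]
          rw [show i' + 1 + (i + 1 - (i' + 1) - 1) = i by omega, a4]
          exact hh
    obtain ⟨n, n1, n2, n3, n4⟩ := hw
    rcases lt_trichotomy j j' with hlt | hjj | hgt
    · obtain ⟨-, -, l3, l4⟩ := hLET G Q x j j' (by omega) (by omega)
      rw [l4 0 (by omega)] at n3
      exact not_inH_inv hC (by simpa using d3) n3
    · subst hjj
      rw [inv_mul_cancel] at e2
      have h1 : Q.y x (i' + 1) = Q.y x (i + 1) := inv_mul_eq_one.1 e2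
      have h2 := hINJ G Q x (i' + 1) (i + 1) (by omega) (by omega) h1
      omega
    · obtain ⟨l1, l2, -, -⟩ := hLET G Q x j' j (by omega) (by omega)
      have hn : n = j - j' := n2.symm.trans l1
      subst hn
      rw [l2 _ (by omega)] at n4
      rw [show j' + (j - j' - 1) = j - 1 by omega] at n4
      exact c3 n4

end Run7.h285.PS8
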