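import Pool.Agent.Run7.h35.PS8.Stm
namespace Run7.h35.PS8
open Finset

theorem t_LET : S_LET := by
  intro G _ Q x i j hij hj
  obtain ⟨h1, h2⟩ := Q.sub x i j hij hj
  set z := (Q.y x i)⁻¹ * Q.y x j with hz
  obtain ⟨h3, h4⟩ := Q.inv z
  have hzi : (Q.y x j)⁻¹ * Q.y x i = z⁻¹ := by rw [hz]; group
  have hs : ∀ t, t < j - i → Q.s z t = Q.s x (i + t) := by
    intro t ht
    simp only [PS.s]
    rw [h2 t (by omega), h2 (t + 1) (by omega), ← add_assoc]
    group
  refine ⟨h1, hs, ?_, ?_⟩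
  · rw [hzi, h3, h1]
  · intro t ht
    rw [hzi]
    simp only [PS.s]
    rw [h4 t (by omega), h4 (t + 1) (by omega), h1]
    have e1 : j - i - t = (j - 1 - t - i) + 1 := by omega
    have e2 : j - i - (t + 1) = j - 1 - t - i := by omega
    rw [e1, e2, h2 _ (by omega), h2 _ (by omega)]
    rw [show i + (j - 1 - t - i + 1) = j - 1 - t + 1 by omega,
      show i + (j - 1 - t - i) = j - 1 - t by omega]
    group

end Run7.h35.PS8
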