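import Pool.Agent.Run7.h35.PS8.Stm
namespace Run7.h35.PS8
open Finset

open Classical in
theorem t_LONG : S_RED → S_DIS → S_STAR → S_STRUCT → S_LONG := by
  intro hRED hDIS hSTAR hSTRUCT G _ _ Q x M hn hM hL
  have hk : 10000 ≤ Q.L x := by nlinarith
  have h1 := hDIS G Q x
  set F : ℕ → G × G := fun i => (Q.s x i, Q.s x (i + 1)) with hF
  set B : ℕ → G × G := fun i => ((Q.s x (i - 1))⁻¹, (Q.s x (i - 2))⁻¹) with hB
  obtain ⟨w, hw⟩ := hSTAR (G × G) (fun a => (a.2⁻¹, a.1⁻¹)) (by intro a; simp) F B (Q.L x) hk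
    (by
      intro i hi hi2
      simp only [hF, hB]
      rw [show i + 2 - 1 = i + 1 by omega, show i + 2 - 2 = i by omega])
    (by
      intro i hi
      rw [Finset.mem_Icc] at hi
      constructor
      · intro h
        simp only [hF, Prod.mk.injEq] at h
        apply hRED G Q x i (by omega)
        rw [h.1, inv_inv]
      · intro h
        simp only [hB, Prod.mk.injEq, inv_inv] at h
        apply hRED G Q x (i - 2) (by omega)
        rw [show i - 2 + 1 = i - 1 by omega]
        rw [← h.1, inv_inv])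
    (by
      have h2 : 8000 * M ≤ Q.L x - 3 := by omega
      calc 1000000 * _ ≤ 1000000 * (64 * Fintype.card G) := Nat.mul_le_mul_left _ h1
        _ ≤ 1000000 * (64 * M ^ 2) := by gcongr
        _ = (8000 * M) ^ 2 := by ring
        _ ≤ (Q.L x - 3) ^ 2 := by gcongr)
  obtain ⟨a, b⟩ := w
  obtain ⟨p, q, hpq, hc⟩ := hSTRUCT G (Q.s x) (Q.L x) hk (hRED G Q x) a b (by
    refine le_trans (Nat.mul_le_mul_left _ (Finset.card_le_card ?_)) hw
    intro i hi
    simp only [Finset.mem_filter] at hi ⊢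
    refine ⟨hi.1, ?_, ?_⟩
    · intro h
      simp only [hF, Prod.mk.injEq] at h
      exact hi.2.1 h
    · intro h
      simp only [hB, Prod.mk.injEq] at h
      apply hi.2.2
      exact ⟨by rw [← h.1, inv_inv], by rw [← h.2, inv_inv]⟩)
  refine ⟨p, q, hpq, ?_⟩
  set D := (Icc 2 (Q.L x - 2)).filter (fun i => InH p q (Q.s x (i - 2)) ∧
    InH p q (Q.s x (i - 1)) ∧ InH p q (Q.s x i) ∧ InH p q (Q.s x (i + 1))) with hD
  have hdeep : ∀ e : ℕ, Deep Q p q x (D.filter (fun i => i % 2 = e)) := by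
    intro e
    refine ⟨?_, ?_⟩
    · intro i hi i' hi' hlt
      simp only [Finset.mem_filter] at hi hi'
      omega
    · intro i hi
      simp only [hD, Finset.mem_filter, Finset.mem_Icc] at hi
      exact ⟨hi.1.1.1, by omega, hi.1.2⟩
  have hsplit : D.card ≤ (D.filter (fun i => i % 2 = 0)).card + (D.filter (fun i => i % 2 = 1)).card := by
    refine le_trans (Finset.card_le_card ?_) (Finset.card_union_le _ _)
    intro i hi
    rcases Nat.mod_two_eq_zero_or_one i with e | e <;> simp [hi, e]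
  by_cases hh : M ≤ (D.filter (fun i => i % 2 = 0)).card
  · exact ⟨_, hh, hdeep 0⟩
  · exact ⟨_, by omega, hdeep 1⟩

end Run7.h35.PS8
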