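import Pool.Agent.Run7.h35.PS8.Stm
namespace Run7.h35.PS8
open Finset

open Classical in
theorem t_MAIN0 : S_LONG → S_NONH → S_LET → S_MET → S_MAIN0 := by
  intro hLONG hNONH hLET hMET G _ _ Q M hn hM
  by_cases hall : ∀ x, Q.L x ≤ 20000 * M
  · refine ⟨fun x => if x = 1 then 0 else 1, ⟨by simp, ?_, ?_, ?_⟩, ?_⟩
    · intro x hx
      by_contra h
      simp [h] at hx
    · intro x; simp
    · intro x z
      by_cases hx : x = 1
      · by_cases hz : z = 1
        · simp [hx, hz]
        · simp [hx, hz]
      · by_cases hz : z = 1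
        · simp [hx, hz]
        · simp only [hx, hz, if_false]; split_ifs <;> omega
    · intro x
      by_cases hx : x = 1
      · have h1 : Q.L (1 : G) = 0 := by
          have := (Q.sub x 0 0 (le_refl _) (Nat.zero_le _)).1
          simpa using this
        rw [hx, h1]; simp
      · simp only [hx, if_false, mul_one]
        calc ∑ i ∈ range (Q.L x), (if Q.s x i = 1 then 0 else 1) ≤ ∑ _i ∈ range (Q.L x), 1 := by
              apply Finset.sum_le_sum
              intro i _; split_ifs <;> omega
          _ = Q.L x := by simp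
          _ ≤ 20000 * M := hall x
  · push Not at hall
    obtain ⟨x, hx⟩ := hall
    obtain ⟨p, q, hpq, I, hI, hD⟩ := hLONG G Q x M hn hM hx
    have hnon := hNONH G Q x p q I M hn hM hpq hI hD
    obtain ⟨ν, hν, hb⟩ := hMET G Q p q (4 * M + 2) hpq hnon (by
      have hne : I.Nonempty := Finset.card_pos.mp (by omega)
      obtain ⟨i, hi⟩ := hne
      obtain ⟨h2, h3, _, _, h4, _⟩ := hD.2 i hi
      obtain ⟨e1, e2, _, _⟩ := hLET G Q x i (i + 1) (by omega) (by omega)
      refine ⟨(Q.y x i)⁻¹ * Q.y x (i + 1), by omega, ?_⟩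
      intro t ht
      rw [e2 t (by omega)]
      have : t = 0 := by omega
      subst this
      exact h4)
    refine ⟨ν, hν, fun x => (hb x).trans ?_⟩
    apply Nat.mul_le_mul_right
    omega

end Run7.h35.PS8
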