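import Mathlib
import Pool.Agent.Run7.h35.PS8.Stm

open Finset Run7.h35.PS8

namespace Run7.h228.PS8

lemma inH_inv {G : Type} [Group G] {p q h : G} (hc : Cl p q) (hh : InH p q h) : InH p q h⁻¹ := by
  obtain ⟨_, h1, h2⟩ := hc
  rcases hh with rfl | rfl
  · exact h1
  · exact h2

theorem t_MET : S_LET → S_RUNS → S_GEO → S_NORM → S_MET := by
  intro hLET hRUNS hGEO hNORM G _ _ Q p q N hcl hN hex
  classical
  -- the longest H-word
  have hmax : ∃ xm : G, (∀ i, i < Q.L xm → InH p q (Q.s xm i)) ∧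
      ∀ x, (∀ i, i < Q.L x → InH p q (Q.s x i)) → Q.L x ≤ Q.L xm := by
    obtain ⟨x0, _, hx0⟩ := hex
    have hne : ((univ : Finset G).filter (fun x => ∀ i, i < Q.L x → InH p q (Q.s x i))).Nonempty :=
      ⟨x0, by simpa using hx0⟩
    obtain ⟨xm, hxm, hm⟩ := Finset.exists_max_image _ Q.L hne
    rw [Finset.mem_filter] at hxm
    exact ⟨xm, hxm.2, fun x hx => hm x (by rw [Finset.mem_filter]; exact ⟨mem_univ _, hx⟩)⟩
  obtain ⟨xm, hxm, hm⟩ := hmax
  have hr : 1 ≤ Q.L xm := by
    obtain ⟨x0, h1, hx0⟩ := hex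
    exact h1.trans (hm x0 hx0)
  obtain ⟨ν, hν, hνr, hνH, hνl⟩ := hNORM G (InH p q) (Q.L xm) hr (fun h hh => inH_inv hcl hh)
  refine ⟨ν, hν, ?_⟩
  intro x
  -- general bound
  have hbound : ∑ i ∈ range (Q.L x), ν (Q.s x i) ≤ (2 * N + 1) * Q.L xm := by
    have hruns : ((range (Q.L x)).filter (fun i => InH p q (Q.s x i))).card ≤
        (((range (Q.L x)).filter (fun i => ¬ InH p q (Q.s x i))).card + 1) * Q.L xm := by
      refine hRUNS (Q.L x) (Q.L xm) (fun i => InH p q (Q.s x i)) ?_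
      intro i j hij hj hall
      obtain ⟨a1, a2, _, _⟩ := hLET G Q x i j hij hj
      rw [← a1]
      apply hm
      intro t ht
      rw [a1] at ht
      rw [a2 t ht]
      exact hall (i + t) (by omega) (by omega)
    have hn := hN x
    rw [← Finset.sum_filter_add_sum_filter_not (range (Q.L x)) (fun i => InH p q (Q.s x i))]
    have s1 : ∑ i ∈ (range (Q.L x)).filter (fun i => InH p q (Q.s x i)), ν (Q.s x i) ≤
        ((range (Q.L x)).filter (fun i => InH p q (Q.s x i))).card * 1 := by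
      apply Finset.sum_le_card_nsmul
      intro i hi
      rw [Finset.mem_filter] at hi
      exact hνH _ hi.2
    have s2 : ∑ i ∈ (range (Q.L x)).filter (fun i => ¬ InH p q (Q.s x i)), ν (Q.s x i) ≤
        ((range (Q.L x)).filter (fun i => ¬ InH p q (Q.s x i))).card * Q.L xm := by
      apply Finset.sum_le_card_nsmul
      intro i _
      exact hνr _
    have s3 : ((range (Q.L x)).filter (fun i => ¬ InH p q (Q.s x i))).card * Q.L xm ≤ N * Q.L xm :=
      Nat.mul_le_mul_right _ hn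
    have s4 : (((range (Q.L x)).filter (fun i => ¬ InH p q (Q.s x i))).card + 1) * Q.L xm ≤
        (N + 1) * Q.L xm := Nat.mul_le_mul_right _ (by omega)
    calc _ ≤ (N + 1) * Q.L xm + N * Q.L xm := by omega
      _ = (2 * N + 1) * Q.L xm := by ring
  rcases Nat.lt_or_ge (ν x) (Q.L xm) with hlt | hge
  · obtain ⟨l, hl1, hl2, hl3⟩ := hνl x hlt
    obtain ⟨g1, g2⟩ := hGEO G Q p q xm hcl hxm l hl1 (by omega)
    rw [hl3] at g1 g2
    calc ∑ i ∈ range (Q.L x), ν (Q.s x i) ≤ ∑ i ∈ range (Q.L x), 1 := by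
          apply Finset.sum_le_sum
          intro i hi
          exact hνH _ (g1 i (Finset.mem_range.1 hi))
      _ = Q.L x := by simp
      _ ≤ ν x := by omega
      _ ≤ (2 * N + 1) * ν x := Nat.le_mul_of_pos_left _ (by omega)
  · exact hbound.trans (Nat.mul_le_mul_left _ hge)

end Run7.h228.PS8
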