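import Pool.Agent.Run7.h35.PS8.Stm

namespace Run7.h993.PS8

open Finset Run7.h35.PS8

theorem t_NONH : S_J → S_K → S_NONH := by
  classical
  intro hJ hK G _ _ Q x₀ p q I M hcard hM hcl hI hdeep x
  set L := Q.L x with hL
  -- bound for J sets
  have bJ : ∀ J : Finset ℕ, Sep J →
      (∀ j ∈ J, 1 ≤ j ∧ j + 2 ≤ Q.L x ∧ ¬ InH p q (Q.s x (j - 1)) ∧
        ¬ (InH p q (Q.s x j) ∧ InH p q (Q.s x (j + 1)))) → J.card ≤ M := by
    intro J hs hj
    have h1 := hJ G Q x₀ x p q I J hcl hdeep hs hj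
    by_contra hcon
    push Not at hcon
    have h2 : M * (M + 1) ≤ I.card * J.card := Nat.mul_le_mul hI hcon
    have h3 : M * (M + 1) ≤ M ^ 2 := h2.trans (h1.trans hcard)
    nlinarith
  have bK : ∀ (h : G) (K : Finset ℕ), InH p q h →
      (∀ j ∈ K, 1 ≤ j ∧ j + 2 ≤ Q.L x ∧ ¬ InH p q (Q.s x (j - 1)) ∧ Q.s x j = h ∧
        InH p q (Q.s x (j + 1))) → K.card ≤ M := by
    intro h K hh hk
    have h1 := hK G Q x p q h K hcl hh hk
    by_contra hcon
    push Not at hcon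
    have h2 : (M + 1) * (M + 1) ≤ K.card * K.card := Nat.mul_le_mul hcon hcon
    have h3 : (M + 1) * (M + 1) ≤ M ^ 2 := h2.trans (h1.trans hcard)
    nlinarith
  let N := (range L).filter (fun i => ¬ InH p q (Q.s x i))
  let R := (range L).filter (fun i => L < i + 3)
  let J0 (r : ℕ) := (range L).filter (fun i => i + 3 ≤ L ∧ ¬ InH p q (Q.s x i) ∧
    ¬ (InH p q (Q.s x (i + 1)) ∧ InH p q (Q.s x (i + 2))) ∧ i % 2 = r)
  let K0 (h : G) := (range L).filter (fun i => i + 3 ≤ L ∧ ¬ InH p q (Q.s x i) ∧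
    Q.s x (i + 1) = h ∧ InH p q (Q.s x (i + 2)))
  have inj : ∀ A : Finset ℕ, (A.image (fun i => i + 1)).card = A.card := fun A =>
    card_image_of_injective A (fun a b h => Nat.succ.inj h)
  have hR : R.card ≤ 2 := by
    have : R ⊆ Finset.Icc (L - 2) (L - 1) := by
      intro i hi
      have hi' := mem_filter.1 hi
      have h1 := mem_range.1 hi'.1
      rw [mem_Icc]
      omega
    have h2 := card_le_card this
    rw [Nat.card_Icc] at h2
    omega
  have hJ0 : ∀ r, (J0 r).card ≤ M := by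
    intro r
    rw [← inj]
    refine bJ _ ?_ ?_
    · intro i hi i' hi' hlt
      obtain ⟨a, ha, rfl⟩ := mem_image.1 hi
      obtain ⟨b, hb, rfl⟩ := mem_image.1 hi'
      have h1 := (mem_filter.1 ha).2.2.2.2
      have h2 := (mem_filter.1 hb).2.2.2.2
      omega
    · intro j hj
      obtain ⟨a, ha, rfl⟩ := mem_image.1 hj
      obtain ⟨-, h1, h2, h3, -⟩ := mem_filter.1 ha
      exact ⟨by omega, by omega, h2, h3⟩
  have hK0 : ∀ h, InH p q h → (K0 h).card ≤ M := by
    intro h hh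
    rw [← inj]
    refine bK h _ hh ?_
    intro j hj
    obtain ⟨a, ha, rfl⟩ := mem_image.1 hj
    obtain ⟨-, h1, h2, h3, h4⟩ := mem_filter.1 ha
    exact ⟨by omega, by omega, h2, h3, h4⟩
  have hsub : N ⊆ R ∪ ((J0 0 ∪ J0 1) ∪ (K0 p ∪ K0 q)) := by
    intro i hi
    obtain ⟨h1, h2⟩ := mem_filter.1 hi
    by_cases h3 : L < i + 3
    · exact mem_union_left _ (mem_filter.2 ⟨h1, h3⟩)
    · refine mem_union_right _ ?_
      have h3' : i + 3 ≤ L := by omega
      by_cases h4 : InH p q (Q.s x (i + 1)) ∧ InH p q (Q.s x (i + 2))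
      · refine mem_union_right _ ?_
        rcases h4.1 with h5 | h5
        · exact mem_union_left _ (mem_filter.2 ⟨h1, h3', h2, h5, h4.2⟩)
        · exact mem_union_right _ (mem_filter.2 ⟨h1, h3', h2, h5, h4.2⟩)
      · refine mem_union_left _ ?_
        rcases Nat.mod_two_eq_zero_or_one i with h5 | h5
        · exact mem_union_left _ (mem_filter.2 ⟨h1, h3', h2, h4, h5⟩)
        · exact mem_union_right _ (mem_filter.2 ⟨h1, h3', h2, h4, h5⟩)
  have c1 := card_le_card hsub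
  have c2 := card_union_le R ((J0 0 ∪ J0 1) ∪ (K0 p ∪ K0 q))
  have c3 := card_union_le (J0 0 ∪ J0 1) (K0 p ∪ K0 q)
  have c4 := card_union_le (J0 0) (J0 1)
  have c5 := card_union_le (K0 p) (K0 q)
  have d1 := hJ0 0
  have d2 := hJ0 1
  have d3 := hK0 p (Or.inl rfl)
  have d4 := hK0 q (Or.inr rfl)
  show N.card ≤ 4 * M + 2
  omega

end Run7.h993.PS8
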