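import Mathlib
import Pool.Agent.Run7.h35.PS8.Stm

set_option autoImplicit false

namespace Run7.h285.PS8

open Run7.h35.PS8

theorem t_NORM : S_NORM := by
  intro G _ H r hr hH
  classical
  set T : G → Set ℕ := fun x => {t | ∃ l : List G, (∀ e ∈ l, H e) ∧ l.length = t ∧ l.prod = x} ∪ {r}
    with hT
  have hne : ∀ x, (T x).Nonempty := fun x => ⟨r, Or.inr rfl⟩
  have hmem : ∀ x, sInf (T x) ∈ T x := fun x => Nat.sInf_mem (hne x)
  have hle : ∀ x, sInf (T x) ≤ r := fun x => Nat.sInf_le (Or.inr rfl)
  have hlist : ∀ (x : G) (l : List G), (∀ e ∈ l, H e) → l.prod = x → sInf (T x) ≤ l.length :=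
    fun x l h1 h2 => Nat.sInf_le (Or.inl ⟨l, h1, rfl, h2⟩)
  have hlt : ∀ x, sInf (T x) < r → ∃ l : List G, (∀ e ∈ l, H e) ∧ l.length = sInf (T x) ∧ l.prod = x := by
    intro x hx
    rcases hmem x with h | h
    · exact h
    · exact absurd h (ne_of_lt hx)
  have hinv : ∀ x, sInf (T x⁻¹) ≤ sInf (T x) := by
    intro x
    rcases lt_or_ge (sInf (T x)) r with hx | hx
    · obtain ⟨l, h1, h2, h3⟩ := hlt x hx
      have h4 : (l.map fun e => e⁻¹).reverse.prod = x⁻¹ := by
        rw [← h3, List.prod_inv_reverse]
      have h5 : ∀ e ∈ (l.map fun e => e⁻¹).reverse, H e := by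
        intro e he
        rw [List.mem_reverse, List.mem_map] at he
        obtain ⟨a, ha, rfl⟩ := he
        exact hH a (h1 a ha)
      have h6 := hlist x⁻¹ _ h5 h4
      rw [List.length_reverse, List.length_map, h2] at h6
      exact h6
    · exact (hle _).trans hx
  refine ⟨fun x => sInf (T x), ⟨?_, ?_, ?_, ?_⟩, hle, ?_, hlt⟩
  · have := hlist 1 [] (by simp) (by simp)
    simpa using this
  · intro x hx
    have hx' : sInf (T x) < r := by
      have : sInf (T x) = 0 := hx
      omega
    obtain ⟨l, -, h2, h3⟩ := hlt x hx'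
    have h4 : l.length = 0 := h2.trans hx
    rw [List.length_eq_zero_iff] at h4
    rw [← h3, h4, List.prod_nil]
  · intro x
    refine le_antisymm (hinv x) ?_
    have := hinv x⁻¹
    rwa [inv_inv] at this
  · intro x z
    show sInf (T (x * z)) ≤ sInf (T x) + sInf (T z)
    rcases lt_or_ge (sInf (T x)) r with hx | hx
    · rcases lt_or_ge (sInf (T z)) r with hz | hz
      · obtain ⟨l, h1, h2, h3⟩ := hlt x hx
        obtain ⟨m, k1, k2, k3⟩ := hlt z hz
        have h5 : ∀ e ∈ l ++ m, H e := by
          intro e he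
          rcases List.mem_append.1 he with h | h
          · exact h1 e h
          · exact k1 e h
        have h6 := hlist (x * z) (l ++ m) h5 (by rw [List.prod_append, h3, k3])
        rw [List.length_append, h2, k2] at h6
        exact h6
      · have := hle (x * z)
        omega
    · have := hle (x * z)
      omega
  · intro h hh
    have := hlist h [h] (by simpa using hh) (by simp)
    simpa using this

end Run7.h285.PS8
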