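import Pool.Agent.Run7.h35.PS8.Stm
namespace Run7.h35.PS8
open Finset

theorem t_PSOF : S_PSOF := by
  intro G _ S P hP
  set W : G → List G := fun x => P 1 x with hW
  set L : G → ℕ := fun x => (W x).length - 1 with hL
  set y : G → ℕ → G := fun x i => ((W x)[i]?).getD 1 with hy
  have hne : ∀ x, 1 ≤ (W x).length := by
    intro x
    have := hP.sys.head 1 x
    rcases h : P 1 x with _ | ⟨a, l⟩
    · rw [h] at this; simp at this
    · simp [hW, h]
  have hel : ∀ x i, i ≤ L x → (W x)[i]? = some (y x i) := by
    intro x i hi
    have hlt : i < (W x).length := by have := hne x; simp only [hL] at hi; omega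
    simp only [hy, List.getElem?_eq_getElem hlt, Option.getD_some]
  have hy0 : ∀ x, y x 0 = 1 := by
    intro x
    have h1 := hP.sys.head 1 x
    have h2 := hel x 0 (Nat.zero_le _)
    rw [List.head?_eq_getElem?] at h1
    have : some (y x 0) = some (1 : G) := by rw [← h2]; exact h1
    exact Option.some.inj this
  have hyL : ∀ x, y x (L x) = x := by
    intro x
    have h1 := hP.sys.last 1 x
    have h2 := hel x (L x) (le_refl _)
    rw [List.getLast?_eq_getElem?] at h1
    have : some (y x (L x)) = some x := by rw [← h2]; exact h1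
    exact Option.some.inj this
  have hPW : ∀ u v, P u v = (W (u⁻¹ * v)).map (fun h => u * h) := by
    intro u v
    have := hP.inv u 1 (u⁻¹ * v)
    simpa [hW] using this
  have hsub : ∀ x i j, i ≤ j → j ≤ L x → L ((y x i)⁻¹ * y x j) = j - i ∧
      ∀ t, t ≤ j - i → y ((y x i)⁻¹ * y x j) t = (y x i)⁻¹ * y x (i + t) := by
    intro x i j hij hj
    have hlen := hne x
    have hjl : j < (W x).length := by simp only [hL] at hj; omega
    set l₂ : List G := ((W x).drop i).take (j - i + 1) with hl2
    have hget : ∀ t, t ≤ j - i → l₂[t]? = some (y x (i + t)) := by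
      intro t ht
      rw [hl2, List.getElem?_take_of_lt (by omega), List.getElem?_drop]
      exact hel x (i + t) (by omega)
    have hl2len : l₂.length = j - i + 1 := by
      rw [hl2, List.length_take, List.length_drop]; omega
    have hcons := hP.sys.cons 1 x ((W x).take i) l₂ (((W x).drop i).drop (j - i + 1)) (y x i)
      (y x j) (by
        rw [List.append_assoc, hl2, List.take_append_drop, List.take_append_drop])
      (by rw [List.head?_eq_getElem?]; simpa using hget 0 (Nat.zero_le _))
      (by
        rw [List.getLast?_eq_getElem?, hl2len]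
        have := hget (j - i) (le_refl _)
        rw [show i + (j - i) = j by omega] at this
        simpa using this)
    rw [hPW] at hcons
    have hlz : (W ((y x i)⁻¹ * y x j)).length = j - i + 1 := by
      rw [← hl2len, hcons, List.length_map]
    have hLz : L ((y x i)⁻¹ * y x j) = j - i := by
      simp only [hL]; omega
    refine ⟨hLz, ?_⟩
    intro t ht
    have h1 := hget t ht
    rw [hcons, List.getElem?_map, hel _ t (by omega)] at h1
    simp only [Option.map_some, Option.some.injEq] at h1
    rw [← h1]; group
  have hinv : ∀ x, L x⁻¹ = L x ∧ ∀ t, t ≤ L x → y x⁻¹ t = x⁻¹ * y x (L x - t) := by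
    intro x
    have h1 : W x⁻¹ = ((W x).reverse).map (fun h => x⁻¹ * h) := by
      have := hP.inv x⁻¹ x 1
      rw [hP.sys.symm 1 x] at this
      simpa [hW] using this
    have hLe : L x⁻¹ = L x := by simp only [hL]; rw [h1]; simp
    refine ⟨hLe, ?_⟩
    intro t ht
    have h2 := hel x⁻¹ t (by rw [hLe]; exact ht)
    have hlen := hne x
    rw [h1, List.getElem?_map, List.getElem?_reverse (by simp only [hL] at ht; omega)] at h2
    have h3 : (W x).length - 1 - t = L x - t := rfl
    rw [h3, hel x (L x - t) (by omega)] at h2
    simp only [Option.map_some, Option.some.injEq] at h2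
    exact h2.symm
  refine ⟨⟨L, y, hy0, hyL, hsub, hinv⟩, ?_⟩
  intro u v
  rw [hPW]
  apply List.ext_getElem?
  intro t
  simp only [List.getElem?_map]
  by_cases ht : t ≤ L (u⁻¹ * v)
  · rw [hel _ t ht, List.getElem?_range (by omega)]
    simp
  · have h1 : (W (u⁻¹ * v)).length ≤ t := by
      have := hne (u⁻¹ * v)
      simp only [hL] at ht; omega
    rw [List.getElem?_eq_none h1, List.getElem?_eq_none (by simp; omega)]
    rfl

end Run7.h35.PS8
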