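import Pool.Agent.Run7.h35.PS8.Stm
namespace Run7.h35.PS8
open Finset

open Classical in
theorem t_RC : S_RC := by
  intro Ω _ F B A A' n h
  set Cd : (Ω → Bool) → ℕ × ℕ → Prop := fun c a =>
    (c (F a.1) = true ∧ c (B a.1) = true) ∧ (c (F a.2) = false ∧ c (B a.2) = false) with hCd
  have hN : ∀ a : ℕ × ℕ, Dj F B a.1 a.2 →
      Fintype.card (Ω → Bool) ≤ 16 * (univ.filter (fun c => Cd c a)).card := by
    intro a ha
    obtain ⟨h1, h2, h3, h4⟩ := ha
    set T : Finset ((Ω → Bool) × (Bool × Bool × Bool × Bool)) :=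
      (univ.filter (fun c => Cd c a)) ×ˢ (univ : Finset (Bool × Bool × Bool × Bool)) with hT
    have hTc : T.card = (univ.filter (fun c => Cd c a)).card * 16 := by
      rw [hT, Finset.card_product]; simp [Fintype.card_prod]
    rw [mul_comm, ← hTc, ← Finset.card_univ]
    apply Finset.card_le_card_of_injOn (fun c =>
      ((fun w => if w = F a.1 ∨ w = B a.1 then true else if w = F a.2 ∨ w = B a.2 then false
        else c w), (c (F a.1), c (B a.1), c (F a.2), c (B a.2))))
    · intro c _
      rw [hT]
      simp only [Finset.coe_product, Set.mem_prod, Finset.mem_coe, Finset.mem_filter,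
        Finset.mem_univ, true_and, and_true, hCd]
      refine ⟨⟨by simp, by simp⟩, ⟨?_, ?_⟩⟩
      · simp [h1.symm, h3.symm]
      · simp [h2.symm, h4.symm]
    · intro c _ c' _ hcc
      simp only [Prod.mk.injEq] at hcc
      obtain ⟨hf, e1, e2, e3, e4⟩ := hcc
      funext w
      by_cases w1 : w = F a.1
      · rw [w1]; exact e1
      by_cases w2 : w = B a.1
      · rw [w2]; exact e2
      by_cases w3 : w = F a.2
      · rw [w3]; exact e3
      by_cases w4 : w = B a.2
      · rw [w4]; exact e4
      have := congrFun hf w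
      simpa [w1, w2, w3, w4] using this
  set D := (A ×ˢ A').filter (fun a => Dj F B a.1 a.2) with hD
  have hsum : ∑ c : Ω → Bool, ((A ×ˢ A').filter (fun a => Cd c a)).card ≤
      Fintype.card (Ω → Bool) * n := by
    rw [← Finset.card_univ, ← smul_eq_mul]
    apply Finset.sum_le_card_nsmul
    intro c _
    have := h c
    rw [← Finset.card_product] at this
    refine le_trans (le_of_eq ?_) this
    congr 1
    ext a
    simp only [Finset.mem_filter, Finset.mem_product, hCd]
    tauto
  have hswap : ∑ c : Ω → Bool, ((A ×ˢ A').filter (fun a => Cd c a)).card =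
      ∑ a ∈ A ×ˢ A', (univ.filter (fun c : Ω → Bool => Cd c a)).card := by
    simp only [Finset.card_filter]
    rw [Finset.sum_comm]
  have hlow : ∑ a ∈ D, (univ.filter (fun c : Ω → Bool => Cd c a)).card ≤
      ∑ a ∈ A ×ˢ A', (univ.filter (fun c : Ω → Bool => Cd c a)).card :=
    Finset.sum_le_sum_of_subset (Finset.filter_subset _ _)
  have hD2 : D.card * Fintype.card (Ω → Bool) ≤
      16 * ∑ a ∈ D, (univ.filter (fun c : Ω → Bool => Cd c a)).card := by
    rw [Finset.mul_sum, ← smul_eq_mul]
    apply Finset.card_nsmul_le_sum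
    intro a ha
    exact hN a (Finset.mem_filter.mp ha).2
  have hpos : 0 < Fintype.card (Ω → Bool) := Fintype.card_pos
  have hfin : D.card * Fintype.card (Ω → Bool) ≤ (16 * n) * Fintype.card (Ω → Bool) := by
    calc D.card * Fintype.card (Ω → Bool) ≤ 16 * (Fintype.card (Ω → Bool) * n) := by
          rw [hswap] at hsum
          exact hD2.trans (Nat.mul_le_mul_left _ (hlow.trans hsum))
      _ = (16 * n) * Fintype.card (Ω → Bool) := by ring
  exact Nat.le_of_mul_le_mul_right hfin hpos

end Run7.h35.PS8
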