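import Mathlib
import Pool.Agent.Run7.h35.PS8.Stm

set_option autoImplicit false

namespace Run7.h285.PS8

open Run7.h35.PS8 Finset

open Classical in
theorem t_RUNS : S_RUNS := by
  intro k r P h
  have key : ∀ n, n ≤ k → ∃ m, m ≤ n ∧ (∀ t, m ≤ t → t < n → P t) ∧
      ((range n).filter (fun i => P i)).card ≤
        ((range n).filter (fun i => ¬ P i)).card * r + (n - m) := by
    intro n
    induction n with
    | zero => intro _; exact ⟨0, le_rfl, by intros; omega, by simp⟩
    | succ n ih =>
      intro hn
      obtain ⟨m, h1, h2, h3⟩ := ih (by omega)
      by_cases hp : P n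
      · refine ⟨m, by omega, fun t a b => ?_, ?_⟩
        · rcases Nat.lt_succ_iff_lt_or_eq.1 b with c | c
          · exact h2 t a c
          · rw [c]; exact hp
        · rw [range_add_one, filter_insert, filter_insert, if_pos hp, if_neg (not_not.2 hp),
            card_insert_of_notMem (by simp)]
          omega
      · refine ⟨n + 1, le_rfl, by intros; omega, ?_⟩
        rw [range_add_one, filter_insert, filter_insert, if_neg hp, if_pos hp,
          card_insert_of_notMem (by simp)]
        have h4 := h m n h1 (by omega) h2
        rw [add_mul, one_mul]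
        omega
  obtain ⟨m, h1, h2, h3⟩ := key k le_rfl
  have h4 := h m k h1 le_rfl h2
  rw [add_mul, one_mul]
  omega

end Run7.h285.PS8
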