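import Pool.Agent.Run7.h35.PS8.Stm

/-! # Project PS8 (helper35, MP_8f0578_co): piece STAR -/

set_option autoImplicit false

namespace Run7.h437.PS8

open Finset Run7.h35.PS8

section
variable {Ω : Type} (F B : ℕ → Ω)

/-- `x` is in the type of `j` -/
def T (j : ℕ) (x : Ω) : Prop := F j = x ∨ B j = x

variable {F B}

theorem notDj {a b : ℕ} (h : ¬ Dj F B a b) : T F B b (F a) ∨ T F B b (B a) := by
  by_contra hcon
  apply h
  unfold T at hcon
  push Not at hcon
  exact ⟨fun e => hcon.1.1 e.symm, fun e => hcon.1.2 e.symm, fun e => hcon.2.1 e.symm,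
    fun e => hcon.2.2 e.symm⟩

theorem Dj_of {a b : ℕ} (h1 : ¬ T F B b (F a)) (h2 : ¬ T F B b (B a)) : Dj F B a b := by
  by_contra h
  rcases notDj h with h | h
  · exact h1 h
  · exact h2 h

theorem two {j : ℕ} {x y : Ω} (hx : T F B j x) (hy : T F B j y) (hxy : x ≠ y) :
    ∀ z, T F B j z → z = x ∨ z = y := by
  intro z hz
  rcases hx with rfl | rfl <;> rcases hy with rfl | rfl <;> rcases hz with rfl | rfl <;>
    first
    | exact absurd rfl hxy
    | exact Or.inl rfl
    | exact Or.inr rfl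

open Classical in
theorem avg (P X : Finset ℕ) (hX : X ⊆ P) (hne : X.Nonempty) :
    ∃ i ∈ X, X.card * (P.filter (fun j => Dj F B i j)).card ≤
      ((P ×ˢ P).filter (fun a => Dj F B a.1 a.2)).card := by
  have hD : ((P ×ˢ P).filter (fun a => Dj F B a.1 a.2)).card =
      ∑ i ∈ P, (P.filter (fun j => Dj F B i j)).card := by
    rw [card_filter, sum_product]
    refine sum_congr rfl fun i _ => ?_
    rw [card_filter]
  by_contra hcon
  push Not at hcon
  have h1 := sum_lt_sum_of_nonempty hne hcon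
  rw [sum_const, smul_eq_mul, ← mul_sum] at h1
  have h2 : ∑ i ∈ X, (P.filter (fun j => Dj F B i j)).card ≤
      ∑ i ∈ P, (P.filter (fun j => Dj F B i j)).card := sum_le_sum_of_subset hX
  rw [← hD] at h2
  exact absurd (Nat.mul_le_mul_left X.card h2) (not_le.2 h1)

theorem degb (x d D m c : ℕ) (hx : 0 < x) (h1 : x * d ≤ D) (h2 : 1000000 * D ≤ m ^ 2)
    (h3 : m ≤ c * x) : 1000000 * d ≤ c * m := by
  have h4 : x * (1000000 * d) ≤ x * (c * m) := by
    calc x * (1000000 * d) = 1000000 * (x * d) := by ring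
      _ ≤ 1000000 * D := Nat.mul_le_mul_left _ h1
      _ ≤ m ^ 2 := h2
      _ = m * m := by ring
      _ ≤ (c * x) * m := Nat.mul_le_mul_right m h3
      _ = x * (c * m) := by ring
  exact Nat.le_of_mul_le_mul_left h4 hx

end

open Classical in
theorem t_STAR : S_STAR := by
  intro Ω bar hbar F B k hk h1 h2 h3
  obtain ⟨P, hP⟩ : ∃ P : Finset ℕ, P = Icc 2 (k - 2) := ⟨_, rfl⟩
  rw [← hP] at h2 h3 ⊢
  obtain ⟨m, hm⟩ : ∃ m : ℕ, m = k - 3 := ⟨_, rfl⟩
  rw [← hm] at h3 ⊢
  have hPc : P.card = m := by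
    rw [hP, Nat.card_Icc, hm]; omega
  have memP : ∀ j, j ∈ P ↔ 2 ≤ j ∧ j ≤ k - 2 := by
    intro j; rw [hP, mem_Icc]
  by_contra hcon
  push Not at hcon
  -- (1)
  obtain ⟨i₀, hi₀, hd₀⟩ := avg (F := F) (B := B) P P (Subset.refl _)
    (card_pos.1 (by omega))
  have hb₀ := degb P.card _ _ m 1 (by omega) hd₀ h3 (by omega)
  obtain ⟨d₀, hd₀'⟩ : ∃ d, d = (P.filter (fun j => Dj F B i₀ j)).card := ⟨_, rfl⟩
  rw [← hd₀'] at hb₀
  obtain ⟨p, hp⟩ : ∃ p, p = F i₀ := ⟨_, rfl⟩
  obtain ⟨q, hq⟩ : ∃ q, q = B i₀ := ⟨_, rfl⟩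
  have hX : ∀ x y : Ω, (∀ j, ¬ T F B j x → ¬ T F B j y → Dj F B i₀ j) →
      m ≤ 200 * (P.filter (fun j => T F B j y ∧ ¬ T F B j x)).card := by
    intro x y hxy
    have e1 := hcon x
    have e2 : P.filter (fun i => F i ≠ x ∧ B i ≠ x) ⊆
        P.filter (fun j => T F B j y ∧ ¬ T F B j x) ∪ P.filter (fun j => Dj F B i₀ j) := by
      intro j hj
      rw [mem_filter] at hj
      have hjx : ¬ T F B j x := by
        rintro (h | h)
        · exact hj.2.1 h
        · exact hj.2.2 h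
      rw [mem_union, mem_filter, mem_filter]
      by_cases hy : T F B j y
      · exact Or.inl ⟨hj.1, hy, hjx⟩
      · exact Or.inr ⟨hj.1, hxy j hjx hy⟩
    have e3 := (card_le_card e2).trans (card_union_le _ _)
    rw [← hd₀'] at e3
    omega
  have hX1 := hX q p (fun j hq' hp' => Dj_of (by rw [← hp]; exact hp') (by rw [← hq]; exact hq'))
  have hX2 := hX p q (fun j hp' hq' => Dj_of (by rw [← hp]; exact hp') (by rw [← hq]; exact hq'))
  obtain ⟨X1, hX1'⟩ : ∃ X, X = P.filter (fun j => T F B j p ∧ ¬ T F B j q) := ⟨_, rfl⟩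
  obtain ⟨X2, hX2'⟩ : ∃ X, X = P.filter (fun j => T F B j q ∧ ¬ T F B j p) := ⟨_, rfl⟩
  rw [← hX1'] at hX1
  rw [← hX2'] at hX2
  -- (2)
  obtain ⟨j₁, hj₁, hd₁⟩ := avg (F := F) (B := B) P X1 (by rw [hX1']; exact filter_subset _ _)
    (card_pos.1 (by omega))
  have hb₁ := degb X1.card _ _ m 200 (by omega) hd₁ h3 hX1
  obtain ⟨d₁, hd₁'⟩ : ∃ d, d = (P.filter (fun j => Dj F B j₁ j)).card := ⟨_, rfl⟩
  rw [← hd₁'] at hb₁
  rw [hX1', mem_filter] at hj₁
  obtain ⟨r, hr, hr'⟩ : ∃ r, T F B j₁ r ∧ ∀ x, T F B j₁ x → x = p ∨ x = r := by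
    rcases hj₁.2.1 with h | h
    · refine ⟨B j₁, Or.inr rfl, ?_⟩
      rintro x (hx | hx)
      · exact Or.inl (hx.symm.trans h)
      · exact Or.inr hx.symm
    · refine ⟨F j₁, Or.inl rfl, ?_⟩
      rintro x (hx | hx)
      · exact Or.inr hx.symm
      · exact Or.inl (hx.symm.trans h)
  have K1 : ∀ j, ¬ Dj F B j₁ j → ¬ T F B j p → T F B j r := by
    intro j hj hjp
    rcases notDj hj with h | h
    · rcases hr' _ (Or.inl rfl) with e | e
      · rw [e] at h; exact absurd h hjp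
      · rw [e] at h; exact h
    · rcases hr' _ (Or.inr rfl) with e | e
      · rw [e] at h; exact absurd h hjp
      · rw [e] at h; exact h
  have hrq : r ≠ q := fun e => hj₁.2.2 (by rw [← e]; exact hr)
  obtain ⟨X3, hX3'⟩ : ∃ X, X = X2.filter (fun j => ¬ Dj F B j₁ j) := ⟨_, rfl⟩
  have hX2P : X2 ⊆ P := by rw [hX2']; exact filter_subset _ _
  have hX3 : m ≤ 400 * X3.card := by
    have e2 : X2 ⊆ X3 ∪ P.filter (fun j => Dj F B j₁ j) := by
      intro j hj
      rw [mem_union, hX3', mem_filter, mem_filter]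
      by_cases h : Dj F B j₁ j
      · exact Or.inr ⟨hX2P hj, h⟩
      · exact Or.inl ⟨hj, h⟩
    have e3 := (card_le_card e2).trans (card_union_le _ _)
    rw [← hd₁'] at e3
    omega
  -- (3)
  obtain ⟨j₂, hj₂, hd₂⟩ := avg (F := F) (B := B) P X3
    (by rw [hX3']; exact (filter_subset _ _).trans hX2P) (card_pos.1 (by omega))
  have hb₂ := degb X3.card _ _ m 400 (by omega) hd₂ h3 hX3
  obtain ⟨d₂, hd₂'⟩ : ∃ d, d = (P.filter (fun j => Dj F B j₂ j)).card := ⟨_, rfl⟩
  rw [← hd₂'] at hb₂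
  rw [hX3', mem_filter, hX2', mem_filter] at hj₂
  have hj₂r : T F B j₂ r := K1 j₂ hj₂.2 hj₂.1.2.2
  have hrp : r ≠ p := fun e => hj₂.1.2.2 (by rw [← e]; exact hj₂r)
  have hqp : q ≠ p := fun e => hj₂.1.2.2 (by rw [← e]; exact hj₂.1.2.1)
  have K2 : ∀ j, ¬ Dj F B j₂ j → ¬ T F B j q → T F B j r := by
    intro j hj hjq
    have ht := two hj₂.1.2.1 hj₂r hrq.symm
    rcases notDj hj with h | h
    · rcases ht _ (Or.inl rfl) with e | e
      · rw [e] at h; exact absurd h hjq
      · rw [e] at h; exact h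
    · rcases ht _ (Or.inr rfl) with e | e
      · rw [e] at h; exact absurd h hjq
      · rw [e] at h; exact h
  obtain ⟨Ex, hEx⟩ : ∃ X, X = P.filter (fun j => Dj F B i₀ j) ∪ P.filter (fun j => Dj F B j₁ j) ∪
    P.filter (fun j => Dj F B j₂ j) := ⟨_, rfl⟩
  have hExc : 1000000 * Ex.card ≤ 601 * m := by
    have e1 : Ex.card ≤ d₀ + d₁ + d₂ := by
      rw [hEx, hd₀', hd₁', hd₂']
      exact (card_union_le _ _).trans (Nat.add_le_add_right (card_union_le _ _) _)
    omega
  have K3 : ∀ j ∈ P, j ∉ Ex → (∀ x, T F B j x → x = p ∨ x = q ∨ x = r) ∧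
      (T F B j r ∨ (T F B j p ∧ T F B j q)) := by
    intro j hj hjE
    have n0 : ¬ Dj F B i₀ j := fun h => hjE (by
      rw [hEx, mem_union, mem_union]
      exact Or.inl (Or.inl (mem_filter.2 ⟨hj, h⟩)))
    have n1 : ¬ Dj F B j₁ j := fun h => hjE (by
      rw [hEx, mem_union, mem_union]
      exact Or.inl (Or.inr (mem_filter.2 ⟨hj, h⟩)))
    have n2 : ¬ Dj F B j₂ j := fun h => hjE (by
      rw [hEx, mem_union, mem_union]
      exact Or.inr (mem_filter.2 ⟨hj, h⟩))
    by_cases hjp : T F B j p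
    · by_cases hjq : T F B j q
      · refine ⟨fun x hx => ?_, Or.inr ⟨hjp, hjq⟩⟩
        rcases two hjp hjq hqp.symm x hx with e | e
        · exact Or.inl e
        · exact Or.inr (Or.inl e)
      · have hjr := K2 j n2 hjq
        refine ⟨fun x hx => ?_, Or.inl hjr⟩
        rcases two hjp hjr hrp.symm x hx with e | e
        · exact Or.inl e
        · exact Or.inr (Or.inr e)
    · have hjr := K1 j n1 hjp
      have hjq : T F B j q := by
        rcases notDj n0 with h | h
        · rw [← hp] at h; exact absurd h hjp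
        · rw [← hq] at h; exact h
      refine ⟨fun x hx => ?_, Or.inl hjr⟩
      rcases two hjq hjr hrq.symm x hx with e | e
      · exact Or.inr (Or.inl e)
      · exact Or.inr (Or.inr e)
  -- (4)
  obtain ⟨AB, hAB⟩ : ∃ X, X = P.filter (fun j => T F B j p ∧ T F B j q) := ⟨_, rfl⟩
  have hABc : m ≤ 200 * AB.card := by
    have e1 := hcon r
    have e2 : P.filter (fun i => F i ≠ r ∧ B i ≠ r) ⊆ AB ∪ Ex := by
      intro j hj
      rw [mem_filter] at hj
      have hjr : ¬ T F B j r := by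
        rintro (h | h)
        · exact hj.2.1 h
        · exact hj.2.2 h
      rw [mem_union]
      by_cases hE : j ∈ Ex
      · exact Or.inr hE
      · refine Or.inl ?_
        rw [hAB, mem_filter]
        rcases (K3 j hj.1 hE).2 with h | h
        · exact absurd h hjr
        · exact ⟨hj.1, h⟩
    have e3 := (card_le_card e2).trans (card_union_le _ _)
    omega
  have K4 : ∀ Y : Finset ℕ, Y ⊆ P → m ≤ 200 * Y.card →
      ∃ j ∈ Y, 4 ≤ j ∧ j + 2 ≤ k - 2 ∧ j ∉ Ex ∧ j - 2 ∉ Ex ∧ j + 2 ∉ Ex := by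
    intro Y hY hYc
    by_contra hno
    push Not at hno
    have e1 : Y ⊆ Ex ∪ Ex.image (fun j => j + 2) ∪ Ex.image (fun j => j - 2) ∪
        ({2, 3} : Finset ℕ) ∪ ({k - 3, k - 2} : Finset ℕ) := by
      intro j hj
      have hjP := (memP j).1 (hY hj)
      simp only [mem_union, mem_image, mem_insert, mem_singleton]
      by_cases c1 : 4 ≤ j
      · by_cases c2 : j + 2 ≤ k - 2
        · by_cases c3 : j ∈ Ex
          · exact Or.inl (Or.inl (Or.inl (Or.inl c3)))
          · by_cases c4 : j - 2 ∈ Ex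
            · exact Or.inl (Or.inl (Or.inl (Or.inr ⟨j - 2, c4, by omega⟩)))
            · exact Or.inl (Or.inl (Or.inr ⟨j + 2, hno j hj c1 c2 c3 c4, by omega⟩))
        · right; omega
      · left; right; omega
    have e2 := card_le_card e1
    have e3 := card_union_le (Ex ∪ Ex.image (fun j => j + 2) ∪ Ex.image (fun j => j - 2) ∪
        ({2, 3} : Finset ℕ)) ({k - 3, k - 2} : Finset ℕ)
    have e4 := card_union_le (Ex ∪ Ex.image (fun j => j + 2) ∪ Ex.image (fun j => j - 2))
        ({2, 3} : Finset ℕ)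
    have e5 := card_union_le (Ex ∪ Ex.image (fun j => j + 2)) (Ex.image (fun j => j - 2))
    have e6 := card_union_le Ex (Ex.image (fun j => j + 2))
    have e7 : (Ex.image (fun j => j + 2)).card ≤ Ex.card := card_image_le
    have e8 : (Ex.image (fun j => j - 2)).card ≤ Ex.card := card_image_le
    have e9 : ({2, 3} : Finset ℕ).card ≤ 2 := card_le_two
    have e10 : ({k - 3, k - 2} : Finset ℕ).card ≤ 2 := card_le_two
    omega
  have K5 : ∀ j, 4 ≤ j → j + 2 ≤ k - 2 → j - 2 ∉ Ex → j + 2 ∉ Ex → ∀ x, T F B j x →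
      bar x = p ∨ bar x = q ∨ bar x = r := by
    intro j c1 c2 c3 c4 x hx
    rcases hx with hx | hx
    · have e1 := h1 j (by omega) c2
      rw [hx] at e1
      exact (K3 (j + 2) ((memP _).2 ⟨by omega, by omega⟩) c4).1 _ (Or.inr e1)
    · have e1 := h1 (j - 2) (by omega) (by omega)
      rw [show j - 2 + 2 = j by omega, hx] at e1
      have e2 : F (j - 2) = bar x := by rw [e1, hbar]
      exact (K3 (j - 2) ((memP _).2 ⟨by omega, by omega⟩) c3).1 _ (Or.inl e2)
  obtain ⟨a, haY, a1, a2, -, a4, a5⟩ := K4 AB (by rw [hAB]; exact filter_subset _ _) hABc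
  rw [hAB, mem_filter] at haY
  have bp := K5 a a1 a2 a4 a5 p haY.2.1
  have bq := K5 a a1 a2 a4 a5 q haY.2.2
  obtain ⟨b, hbY, b1, b2, b3, b4, b5⟩ := K4 X2 hX2P hX2
  rw [hX2', mem_filter] at hbY
  have hbr : T F B b r := by
    rcases (K3 b hbY.1 b3).2 with h | h
    · exact h
    · exact absurd h.1 hbY.2.2
  have br := K5 b b1 b2 b4 b5 r hbr
  have np : bar p ≠ p := by
    have := (h2 i₀ hi₀).1
    rw [← hp] at this
    exact this.symm
  have nq : bar q ≠ q := by
    have := (h2 i₀ hi₀).2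
    rw [← hq] at this
    exact this.symm
  have nr : bar r ≠ r := by
    rcases hj₂r with h | h
    · have := (h2 j₂ hj₂.1.1).1
      rw [h] at this
      exact this.symm
    · have := (h2 j₂ hj₂.1.1).2
      rw [h] at this
      exact this.symm
  have ip := hbar p
  have iq := hbar q
  have ir := hbar r
  rcases bp with e | e | e
  · exact np e
  · -- bar p = q
    rw [e] at ip
    rcases br with e' | e' | e'
    · rw [e', e] at ir
      exact hrq ir.symm
    · rw [e', ip] at ir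
      exact hrp ir.symm
    · exact nr e'
  · -- bar p = r
    rw [e] at ip
    rcases bq with e' | e' | e'
    · rw [e', e] at iq
      exact hrq iq
    · exact nq e'
    · rw [e', ip] at iq
      exact hqp iq.symm

end Run7.h437.PS8
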