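import Mathlib
import Pool.Agent.Run7.h35.PS8.Stm

set_option autoImplicit false

namespace Run7.h64.PS8
open Run7.h35.PS8 Finset

lemma count (k : ℕ) (P : ℕ → Prop) [DecidablePred P]
    (hP : ∀ t < (k - 3) / 5, ∃ j, 2 + 5 * t ≤ j ∧ j ≤ 2 + 5 * t + 4 ∧ P j) :
    (k - 3) / 5 ≤ ((Icc 2 (k - 2)).filter P).card := by
  choose! f hf using hP
  have h := Finset.card_le_card_of_injOn (s := range ((k - 3) / 5))
    (t := (Icc 2 (k - 2)).filter P) f ?_ ?_
  · simpa using h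
  · intro t ht
    have ht' : t < (k - 3) / 5 := by simpa using ht
    obtain ⟨h1, h2, h3⟩ := hf t ht'
    simp only [coe_filter, Set.mem_ofPred_eq, mem_Icc]
    refine ⟨⟨by omega, by omega⟩, h3⟩
  · intro t ht t' ht' he
    have h1 : t < (k - 3) / 5 := by simpa using ht
    have h2 : t' < (k - 3) / 5 := by simpa using ht'
    obtain ⟨a1, a2, -⟩ := hf t h1
    obtain ⟨b1, b2, -⟩ := hf t' h2
    have he' : f t = f t' := he
    omega

lemma count2 (k : ℕ) (A B : ℕ → Prop) [DecidablePred A] [DecidablePred B]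
    (hP : ∀ t < (k - 3) / 5, ∃ j, 2 + 5 * t ≤ j ∧ j ≤ 2 + 5 * t + 4 ∧ (A j ∨ B j)) :
    (k - 3) / 5 ≤ ((Icc 2 (k - 2)).filter A).card + ((Icc 2 (k - 2)).filter B).card := by
  have h := count k (fun j => A j ∨ B j) hP
  rw [Finset.filter_or] at h
  exact h.trans (Finset.card_union_le _ _)

open Classical in
lemma key {G : Type} [Group G] (s : ℕ → G) (k : ℕ) (hk : 10000 ≤ k) (a b p q : G)
    (hbad : 100 * ((Icc 2 (k - 2)).filter (fun i => ¬ (s i = a ∧ s (i + 1) = b) ∧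
      ¬ (s (i - 1) = a⁻¹ ∧ s (i - 2) = b⁻¹))).card ≤ k - 3)
    (h : ∀ m, m + 8 ≤ k →
      (∀ j, m + 2 ≤ j → j ≤ m + 6 →
        (s j = a ∧ s (j + 1) = b) ∨ (s (j - 1) = a⁻¹ ∧ s (j - 2) = b⁻¹)) →
      Cl p q ∧ ∃ j, m + 2 ≤ j ∧ j ≤ m + 6 ∧ (InH p q (s (j - 2)) ∧ InH p q (s (j - 1)) ∧
        InH p q (s j) ∧ InH p q (s (j + 1)))) :
    ∃ p q : G, Cl p q ∧ k ≤ 20 * ((Icc 2 (k - 2)).filter (fun i => InH p q (s (i - 2)) ∧
      InH p q (s (i - 1)) ∧ InH p q (s i) ∧ InH p q (s (i + 1)))).card := by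
  by_cases hCl : Cl p q
  · refine ⟨p, q, hCl, ?_⟩
    have h1 := count2 k (fun i => ¬ (s i = a ∧ s (i + 1) = b) ∧
      ¬ (s (i - 1) = a⁻¹ ∧ s (i - 2) = b⁻¹)) (fun i => InH p q (s (i - 2)) ∧
      InH p q (s (i - 1)) ∧ InH p q (s i) ∧ InH p q (s (i + 1))) (by
        intro t ht
        by_cases hg : ∀ j, 5 * t + 2 ≤ j → j ≤ 5 * t + 6 →
          (s j = a ∧ s (j + 1) = b) ∨ (s (j - 1) = a⁻¹ ∧ s (j - 2) = b⁻¹)
        · obtain ⟨-, j, hj1, hj2, hj3⟩ := h (5 * t) (by omega) hg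
          exact ⟨j, by omega, by omega, Or.inr hj3⟩
        · push Not at hg
          obtain ⟨j, hj1, hj2, hj3, hj4⟩ := hg
          refine ⟨j, by omega, by omega, Or.inl ⟨?_, ?_⟩⟩
          · rintro ⟨u, v⟩; exact hj3 u v
          · rintro ⟨u, v⟩; exact hj4 u v)
    omega
  · exfalso
    have h1 := count k (fun i => (¬ (s i = a ∧ s (i + 1) = b) ∧
      ¬ (s (i - 1) = a⁻¹ ∧ s (i - 2) = b⁻¹))) (by
        intro t ht
        by_cases hg : ∀ j, 5 * t + 2 ≤ j → j ≤ 5 * t + 6 →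
          (s j = a ∧ s (j + 1) = b) ∨ (s (j - 1) = a⁻¹ ∧ s (j - 2) = b⁻¹)
        · exact absurd (h (5 * t) (by omega) hg).1 hCl
        · push Not at hg
          obtain ⟨j, hj1, hj2, hj3, hj4⟩ := hg
          refine ⟨j, by omega, by omega, ⟨?_, ?_⟩⟩
          · rintro ⟨u, v⟩; exact hj3 u v
          · rintro ⟨u, v⟩; exact hj4 u v)
    omega

theorem t_STRUCT : S_STRUCT := by
  intro G _ s k hk hred a b hbad
  by_cases hab : a = b
  · subst hab
    refine key s k hk a a a a⁻¹ hbad ?_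
    intro m hm hg
    have hne : a ≠ a⁻¹ := by
      rcases hg (m + 2) le_rfl (by omega) with ⟨h1, h2⟩ | ⟨h1, h2⟩
      · have := hred (m + 2) (by omega)
        rw [h1, h2] at this
        exact this
      · have h1' : s (m + 1) = a⁻¹ := h1
        have h2' : s m = a⁻¹ := h2
        have := hred m (by omega)
        rw [h1', h2', inv_inv] at this
        exact fun h => this h.symm
    have hCl : Cl a a⁻¹ := ⟨hne, Or.inr rfl, Or.inl (inv_inv a)⟩
    refine ⟨hCl, ?_⟩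
    have step : ∀ j, m + 2 ≤ j → j + 1 ≤ m + 6 → s j = a → (s (j + 1) = a ∧ s (j + 2) = a) := by
      intro j hj1 hj2 hX
      rcases hg (j + 1) (by omega) hj2 with h | h
      · exact h
      · have h3 : s j = a⁻¹ := h.1
        exact absurd (hX.symm.trans h3) hne
    rcases hg (m + 4) (by omega) (by omega) with hX | hY
    · have e5 := step (m + 4) (by omega) (by omega) hX.1
      have e6 := step (m + 5) (by omega) (by omega) e5.1
      exact ⟨m + 6, by omega, le_rfl, Or.inl hX.1, Or.inl e5.1, Or.inl e6.1, Or.inl e6.2⟩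
    · have h3 : s (m + 3) = a⁻¹ := hY.1
      have h2 : s (m + 2) = a⁻¹ := hY.2
      have h1 : s (m + 1) = a⁻¹ := by
        rcases hg (m + 3) (by omega) (by omega) with h | h
        · exact absurd (h.1.symm.trans h3) hne
        · exact h.2
      have h0 : s m = a⁻¹ := by
        rcases hg (m + 2) (by omega) (by omega) with h | h
        · exact absurd (h.1.symm.trans h2) hne
        · exact h.2
      exact ⟨m + 2, le_rfl, by omega, Or.inr h0, Or.inr h1, Or.inr h2, Or.inr h3⟩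
  · refine key s k hk a b a b hbad ?_
    intro m hm hg
    have nXX : ∀ j, ¬ ((s j = a ∧ s (j + 1) = b) ∧ (s (j + 1) = a ∧ s (j + 2) = b)) := by
      rintro j ⟨⟨-, h2⟩, ⟨h3, -⟩⟩
      exact hab (h3.symm.trans h2)
    have nYY : ∀ j, ¬ ((s (j + 1) = a⁻¹ ∧ s j = b⁻¹) ∧ (s (j + 2) = a⁻¹ ∧ s (j + 1) = b⁻¹)) := by
      rintro j ⟨⟨h1, -⟩, ⟨-, h2⟩⟩
      exact hab (inv_injective (h1.symm.trans h2))
    have g2 : (s (m + 2) = a ∧ s (m + 3) = b) ∨ (s (m + 1) = a⁻¹ ∧ s m = b⁻¹) :=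
      hg (m + 2) (by omega) (by omega)
    have g3 : (s (m + 3) = a ∧ s (m + 4) = b) ∨ (s (m + 2) = a⁻¹ ∧ s (m + 1) = b⁻¹) :=
      hg (m + 3) (by omega) (by omega)
    have g4 : (s (m + 4) = a ∧ s (m + 5) = b) ∨ (s (m + 3) = a⁻¹ ∧ s (m + 2) = b⁻¹) :=
      hg (m + 4) (by omega) (by omega)
    have g5 : (s (m + 5) = a ∧ s (m + 6) = b) ∨ (s (m + 4) = a⁻¹ ∧ s (m + 3) = b⁻¹) :=
      hg (m + 5) (by omega) (by omega)
    have g6 : (s (m + 6) = a ∧ s (m + 7) = b) ∨ (s (m + 5) = a⁻¹ ∧ s (m + 4) = b⁻¹) :=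
      hg (m + 6) (by omega) (by omega)
    -- the four alternating positions
    have fin : ∀ j, m + 1 ≤ j → j ≤ m + 2 →
        (s (j + 1) = a ∧ s (j + 2) = b) → (s (j + 1) = a⁻¹ ∧ s j = b⁻¹) →
        (s (j + 3) = a ∧ s (j + 4) = b) → (s (j + 3) = a⁻¹ ∧ s (j + 2) = b⁻¹) →
        Cl a b ∧ ∃ j, m + 2 ≤ j ∧ j ≤ m + 6 ∧ (InH a b (s (j - 2)) ∧ InH a b (s (j - 1)) ∧
        InH a b (s j) ∧ InH a b (s (j + 1))) := by
      intro j hj1 hj2 hx1 hy1 hx2 hy2
      have ea : a⁻¹ = a := hy1.1.symm.trans hx1.1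
      have eb : b⁻¹ = b := hy2.2.symm.trans hx1.2
      refine ⟨⟨hab, Or.inl ea, Or.inr eb⟩, j + 2, by omega, by omega, ?_, ?_, ?_, ?_⟩
      · exact Or.inr (hy1.2.trans eb)
      · exact Or.inl hx1.1
      · exact Or.inr hx1.2
      · exact Or.inl hx2.1
    rcases g2 with x2 | y2
    · have y3 := g3.resolve_left (fun h => nXX _ ⟨x2, h⟩)
      have x4 := g4.resolve_right (fun h => nYY _ ⟨y3, h⟩)
      have y5 := g5.resolve_left (fun h => nXX _ ⟨x4, h⟩)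
      exact fin (m + 1) le_rfl (by omega) x2 y3 x4 y5
    · have x3 := g3.resolve_right (fun h => nYY _ ⟨y2, h⟩)
      have y4 := g4.resolve_left (fun h => nXX _ ⟨x3, h⟩)
      have x5 := g5.resolve_right (fun h => nYY _ ⟨y4, h⟩)
      have y6 := g6.resolve_left (fun h => nXX _ ⟨x5, h⟩)
      exact fin (m + 2) (by omega) le_rfl x3 y4 x5 y6

end Run7.h64.PS8
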