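import Mathlib
import Pool.Agent.Run7.h35.PS8.Stm

/-!
# Piece SUBW of project PS8 (MP_8f0578_co): subwords of a long `H`-word
-/

namespace Run7.h73.PS8.subw

open Run7.h35.PS8

theorem inv_mem {G : Type} [Group G] {p q e : G} (hc : Cl p q) (he : InH p q e) :
    InH p q e⁻¹ := by
  obtain ⟨_, h1, h2⟩ := hc
  rcases he with rfl | rfl
  · exact h1
  · exact h2

theorem uniq {G : Type} [Group G] {p q u v w : G} (hu : InH p q u) (hv : InH p q v)
    (hw : InH p q w) (h1 : u ≠ w) (h2 : v ≠ w) : u = v := by
  rcases hu with rfl | rfl <;> rcases hv with rfl | rfl <;> rcases hw with hw | hw <;>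
    first | rfl | exact absurd hw.symm h1 | exact absurd hw.symm h2

theorem t_SUBW : S_LET → S_RED → S_SUBW := by
  intro hLET hRED G _ Q p q xm hc hm h hh t ht1 ht2
  by_cases h0 : Q.s xm 0 = h
  · have hl := hLET G Q xm 0 t (Nat.zero_le _) (by omega)
    refine ⟨_, by simpa using hl.1, fun i hi => ?_, ?_⟩
    · rw [hl.2.1 i (by omega)]
      exact hm _ (by omega)
    · rw [hl.2.1 0 (by omega)]
      exact h0
  · by_cases h1 : Q.s xm 1 = h
    · have hl := hLET G Q xm 1 (t + 1) (by omega) (by omega)
      refine ⟨_, by simpa using hl.1, fun i hi => ?_, ?_⟩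
      · rw [hl.2.1 i (by omega)]
        exact hm _ (by omega)
      · rw [hl.2.1 0 (by omega)]
        exact h1
    · have a0 := hm 0 (by omega)
      have a1 := hm 1 (by omega)
      have e01 : Q.s xm 1 = Q.s xm 0 := uniq a1 a0 hh h1 h0
      have r0 := hRED G Q xm 0 (by omega)
      have hinv : (Q.s xm 0)⁻¹ = h := by
        refine uniq (inv_mem hc a0) hh a0 ?_ (fun e => h0 e.symm)
        intro e
        apply r0
        rw [Nat.zero_add, e01, e]
      have hall : ∀ i, i < Q.L xm → Q.s xm i = Q.s xm 0 := by
        intro i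
        induction i with
        | zero => intro _; rfl
        | succ i ih =>
          intro hi
          have e := ih (by omega)
          have r := hRED G Q xm i (by omega)
          rw [e, hinv] at r
          exact uniq (hm _ hi) a0 hh r h0
      have hl := hLET G Q xm (Q.L xm - t) (Q.L xm) (by omega) le_rfl
      refine ⟨_, by rw [hl.2.2.1]; omega, fun i hi => ?_, ?_⟩
      · rw [hl.2.2.2 i (by omega), hall _ (by omega)]
        exact inv_mem hc a0
      · rw [hl.2.2.2 0 (by omega), hall _ (by omega)]
        exact hinv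

end Run7.h73.PS8.subw
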