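import Pool.Agent.Run7.h35.PS8.Stm
namespace Run7.h35.PS8
open Finset

theorem t_INJ : S_INJ := by
  intro G _ Q x i j hi hj h
  have h1 : Q.L (1 : G) = 0 := by
    have := (Q.sub x 0 0 (le_refl _) (Nat.zero_le _)).1
    simpa using this
  rcases le_total i j with hij | hij
  · have := (Q.sub x i j hij hj).1
    rw [h, inv_mul_cancel, h1] at this
    omega
  · have := (Q.sub x j i hij hi).1
    rw [h, inv_mul_cancel, h1] at this
    omega

theorem t_RED : S_RED := by
  intro G _ Q x i hi h
  have hinj := t_INJ G Q x i (i+2) (by omega) hi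
  have : Q.y x i = Q.y x (i+2) := by
    have h2 : Q.y x (i+1) = Q.y x i * Q.s x i := by simp [PS.s]
    have h3 : Q.y x (i+2) = Q.y x (i+1) * Q.s x (i+1) := by simp [PS.s]
    rw [h3, h2, h]; simp
  have := hinj this
  omega

theorem t_KP : S_INJ → S_KP := by
  intro hI G _ _ Q x x' I J hi hj h
  classical
  rw [← Finset.card_product, ← Finset.card_univ]
  apply Finset.card_le_card_of_injOn (fun a => Q.y x a.1 * (Q.y x' a.2)⁻¹)
  · intro a _; simp
  · rintro ⟨i, j⟩ ha ⟨i', j'⟩ hb hab
    simp only [Finset.coe_product, Set.mem_prod, Finset.mem_coe] at ha hb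
    simp only at hab
    have h1 : (Q.y x i)⁻¹ * Q.y x i' = (Q.y x' j)⁻¹ * Q.y x' j' := by
      have : Q.y x i' = Q.y x i * (Q.y x' j)⁻¹ * Q.y x' j' := by
        rw [hab]; group
      rw [this]; group
    by_cases e1 : i = i'
    · subst e1
      have e3 : Q.y x' j = Q.y x' j' := by
        have := h1.symm
        rw [inv_mul_cancel] at this
        exact (inv_mul_eq_one.mp this)
      have := hI G Q x' j j' (hj _ ha.2) (hj _ hb.2) e3
      subst this; rfl
    · by_cases e2 : j = j'
      · subst e2
        rw [inv_mul_cancel] at h1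
        have := hI G Q x i i' (hi _ ha.1) (hi _ hb.1) (inv_mul_eq_one.mp h1)
        exact absurd this e1
      · exact absurd h1 (h i ha.1 i' hb.1 j ha.2 j' hb.2 e1 e2)

theorem t_LEN : S_LEN := by
  intro V ρ k f
  have key : ∀ (k : ℕ) (f : ℕ → V), plen ρ ((List.range (k + 1)).map f) = ∑ i ∈ range k, ρ (f i) (f (i + 1)) := by
    intro k
    induction k with
    | zero => intro f; simp [plen]
    | succ k ih =>
      intro f
      have h1 : (List.range (k + 1 + 1)).map f = f 0 :: (List.range (k + 1)).map (fun i => f (i+1)) := by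
        rw [List.range_succ_eq_map]; simp [Function.comp_def]
      have h2 : (List.range (k + 1)).map (fun i => f (i+1)) = f 1 :: (List.range k).map (fun i => f (i+2)) := by
        rw [List.range_succ_eq_map]; simp [Function.comp_def]
      have h3 := ih (fun i => f (i+1))
      rw [h1, Finset.sum_range_succ', ← h3, h2]
      simp [plen, add_comm]
  exact key k f

end Run7.h35.PS8
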