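import Pool.Agent.Run7.h35.PS8.Stm

/-! Piece J of project PS (helper35). -/

set_option autoImplicit false

namespace Run7.h499.PS8

open Finset Run7.h35.PS8

theorem inH_inv {G : Type} [Group G] {p q e : G} (hc : Cl p q) (h : InH p q e) :
    InH p q e⁻¹ := by
  obtain ⟨-, h1, h2⟩ := hc
  rcases h with rfl | rfl
  · exact h1
  · exact h2

theorem t_J : S_LET → S_KP → S_J := by
  intro hLET hKP G _ _ Q x₀ x p q I J hc hD hJ hJ2
  obtain ⟨hI, hI2⟩ := hD
  refine hKP G Q x₀ x I J (fun i hi => by have := hI2 i hi; omega)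
    (fun j hj => by have := hJ2 j hj; omega) ?_
  intro i hi i' hi' j hj j' hj' hne hne' heq
  -- first two letters from the left side
  have hL : InH p q (Q.s ((Q.y x₀ i)⁻¹ * Q.y x₀ i') 0) ∧
      InH p q (Q.s ((Q.y x₀ i)⁻¹ * Q.y x₀ i') 1) := by
    obtain ⟨a1, a2, a3, a4, a5, a6⟩ := hI2 i hi
    obtain ⟨b1, b2, b3, b4, b5, b6⟩ := hI2 i' hi'
    rcases lt_or_gt_of_ne hne with h | h
    · have h2 := hI i hi i' hi' h
      obtain ⟨-, c1, -, -⟩ := hLET G Q x₀ i i' h.le (by omega)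
      rw [c1 0 (by omega), c1 1 (by omega)]
      exact ⟨a5, a6⟩
    · have h2 := hI i' hi' i hi h
      obtain ⟨-, -, -, c2⟩ := hLET G Q x₀ i' i h.le (by omega)
      rw [c2 0 (by omega), c2 1 (by omega)]
      have e1 : i - 1 - 0 = i - 1 := by omega
      have e2 : i - 1 - 1 = i - 2 := by omega
      rw [e1, e2]
      exact ⟨inH_inv hc a4, inH_inv hc a3⟩
  rw [heq] at hL
  obtain ⟨a1, a2, a3, a4⟩ := hJ2 j hj
  obtain ⟨b1, b2, b3, b4⟩ := hJ2 j' hj'
  rcases lt_or_gt_of_ne hne' with h | h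
  · have h2 := hJ j hj j' hj' h
    obtain ⟨-, c1, -, -⟩ := hLET G Q x j j' h.le (by omega)
    rw [c1 0 (by omega), c1 1 (by omega)] at hL
    exact a4 hL
  · have h2 := hJ j' hj' j hj h
    obtain ⟨-, -, -, c2⟩ := hLET G Q x j' j h.le (by omega)
    rw [c2 0 (by omega)] at hL
    have e1 : j - 1 - 0 = j - 1 := by omega
    rw [e1] at hL
    have := inH_inv hc hL.1
    rw [inv_inv] at this
    exact a3 this

end Run7.h499.PS8
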